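import Pool.Agent.Helper17.Sign.PowerSums

namespace Pool.Agent.Helper17.Sign

open Polynomial Module

section closed
variable {K V : Type*} [Field K] [AddCommGroup V] [Module K V] [FiniteDimensional K V]

lemma trace_pow_closed [IsAlgClosed K] (f : Module.End K V) (n : ℕ) :
    LinearMap.trace K V (f ^ n) = (f.charpoly.roots.map (· ^ n)).sum := by
  classical
  have hds := DirectSum.isInternal_submodule_of_iSupIndep_of_iSup_eq_top
      f.independent_maxGenEigenspace (Module.End.iSup_maxGenEigenspace_eq_top f)
  have h_fin : {μ | f.maxGenEigenspace μ ≠ ⊥}.Finite :=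
      WellFoundedGT.finite_ne_bot_of_iSupIndep f.independent_maxGenEigenspace
  have hmaps : ∀ μ, Set.MapsTo (f ^ n) ↑(f.maxGenEigenspace μ) ↑(f.maxGenEigenspace μ) :=
    fun μ => f.mapsTo_maxGenEigenspace_of_comm (Commute.pow_right (Commute.refl f) n) μ
  rw [LinearMap.trace_eq_sum_trace_restrict' hds h_fin hmaps]
  have htr : ∀ μ, LinearMap.trace K _ ((f ^ n).restrict (hmaps μ)) =
      (f.charpoly.rootMultiplicity μ : K) * μ ^ n := by
    intro μ
    have hf' := f.mapsTo_maxGenEigenspace_of_comm (Commute.refl f) μ
    have hnil := f.isNilpotent_restrict_maxGenEigenspace_sub_algebraMap μ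
    set g : Module.End K (f.maxGenEigenspace μ) := f.restrict hf' with hg
    have hpow : (f ^ n).restrict (hmaps μ) = g ^ n :=
      (Module.End.pow_restrict n hf').symm
    have hnil' : IsNilpotent (g - algebraMap K (Module.End K (f.maxGenEigenspace μ)) μ) := by
      convert hnil using 1
      ext x; simp [hg, Module.algebraMap_end_apply]
    have hnil2 : IsNilpotent (g ^ n - algebraMap K (Module.End K (f.maxGenEigenspace μ)) μ ^ n) := by
      have hcomm : Commute g (algebraMap K (Module.End K (f.maxGenEigenspace μ)) μ) :=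
        (Algebra.commutes μ g).symm
      rw [← hcomm.mul_geom_sum₂ n]
      refine Commute.isNilpotent_mul_right ?_ hnil'
      refine Commute.sub_left ?_ ?_
      · refine Commute.sum_right _ _ _ fun i _ => ?_
        exact (Commute.pow_right (Commute.refl g) i).mul_right (hcomm.pow_right _)
      · refine Commute.sum_right _ _ _ fun i _ => ?_
        exact (hcomm.symm.pow_right i).mul_right ((Commute.refl _).pow_right _)
    have h0 := LinearMap.isNilpotent_trace_of_isNilpotent hnil2
    rw [isNilpotent_iff_eq_zero, map_sub, sub_eq_zero] at h0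
    rw [hpow, h0, ← map_pow, Algebra.algebraMap_eq_smul_one, map_smul, LinearMap.trace_one,
      LinearMap.finrank_maxGenEigenspace_eq, smul_eq_mul, mul_comm]
  simp_rw [htr]
  rw [Finset.sum_multiset_map_count]
  have hsub : h_fin.toFinset = f.charpoly.roots.toFinset := by
    ext μ
    simp only [Set.Finite.mem_toFinset, Set.mem_ofPred_eq, Multiset.mem_toFinset]
    rw [Polynomial.mem_roots f.charpoly_monic.ne_zero, ne_eq, ← Submodule.finrank_eq_zero,
      LinearMap.finrank_maxGenEigenspace_eq, Polynomial.rootMultiplicity_eq_zero_iff]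
    simp [f.charpoly_monic.ne_zero]
  rw [hsub]
  refine Finset.sum_congr rfl fun μ _ => ?_
  rw [Polynomial.count_roots, nsmul_eq_mul]

end closed

section general
variable {F V : Type*} [Field F] [AddCommGroup V] [Module F V] [FiniteDimensional F V]

/-- eigenvalues, with multiplicity, in an algebraic closure -/
noncomputable def eig (f : Module.End F V) : Multiset (AlgebraicClosure F) :=
  (f.charpoly.map (algebraMap F (AlgebraicClosure F))).roots

lemma trace_pow (f : Module.End F V) (n : ℕ) :
    algebraMap F (AlgebraicClosure F) (LinearMap.trace F V (f ^ n)) =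
      ((eig f).map (· ^ n)).sum := by
  set K := AlgebraicClosure F
  have h := trace_pow_closed (LinearMap.baseChange K f) n
  rw [← LinearMap.baseChange_pow, LinearMap.trace_baseChange, LinearMap.charpoly_baseChange] at h
  exact h

lemma prod_eig (f : Module.End F V) :
    ((eig f).map fun a => X - C a).prod = f.charpoly.map (algebraMap F (AlgebraicClosure F)) := by
  have hs := IsAlgClosed.splits (f.charpoly.map (algebraMap F (AlgebraicClosure F)))
  have hm := (f.charpoly_monic).map (algebraMap F (AlgebraicClosure F))
  rw [eig]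
  exact (hs.eq_prod_roots_of_monic hm).symm

lemma card_eig (f : Module.End F V) : (eig f).card = finrank F V := by
  have hs := IsAlgClosed.splits (f.charpoly.map (algebraMap F (AlgebraicClosure F)))
  rw [eig, ← hs.natDegree_eq_card_roots, natDegree_map, LinearMap.charpoly_natDegree]

lemma mem_eig (f : Module.End F V) (a : AlgebraicClosure F) :
    a ∈ eig f ↔ aeval a f.charpoly = 0 := by
  have hne : f.charpoly.map (algebraMap F (AlgebraicClosure F)) ≠ 0 :=
    ((f.charpoly_monic).map (algebraMap F (AlgebraicClosure F))).ne_zero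
  rw [eig, mem_roots hne, IsRoot, eval_map_algebraMap]

variable {W : Type*} [AddCommGroup W] [Module F W] [FiniteDimensional F W]

lemma coprime_iff_eig (f : Module.End F V) (g : Module.End F W) :
    IsCoprime f.charpoly g.charpoly ↔ ∀ a ∈ eig f, a ∉ eig g := by
  rw [Polynomial.isCoprime_iff_aeval_ne_zero_of_isAlgClosed F (AlgebraicClosure F)]
  constructor
  · intro h a ha hb
    rw [mem_eig] at ha hb
    rcases h a with h1 | h1
    · exact h1 ha
    · exact h1 hb
  · intro h a
    by_contra hcon
    push Not at hcon
    exact h a ((mem_eig f a).mpr hcon.1) ((mem_eig g a).mpr hcon.2)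

/-- Coprime characteristic polynomials and rational trace differences: the characteristic
polynomial has rational coefficients. -/
theorem rational_charpoly [CharZero F] (f : Module.End F V) (g : Module.End F W)
    (hc : IsCoprime f.charpoly g.charpoly)
    (ht : ∀ n, 1 ≤ n → ∃ q : ℚ, LinearMap.trace F V (f ^ n) - LinearMap.trace F W (g ^ n) = (q : F)) :
    ∃ p : ℚ[X], p.map (algebraMap ℚ F) = f.charpoly := by
  obtain ⟨p, hp⟩ := rational_of_disjoint (eig f) (eig g) (by
    intro n hn
    obtain ⟨q, hq⟩ := ht n hn
    refine ⟨q, ?_⟩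
    rw [← trace_pow, ← trace_pow, ← map_sub, hq]; simp) ((coprime_iff_eig f g).mp hc)
  refine ⟨p, ?_⟩
  apply Polynomial.map_injective (algebraMap F (AlgebraicClosure F))
    (algebraMap F (AlgebraicClosure F)).injective
  rw [Polynomial.map_map, ← prod_eig, ← hp]
  congr 1

/-- The idempotent `(1,0)` as a rational polynomial in `(f,g)`. -/
theorem exists_polynomial [CharZero F] (f : Module.End F V) (g : Module.End F W)
    (hc : IsCoprime f.charpoly g.charpoly)
    (ht : ∀ n, 1 ≤ n → ∃ q : ℚ, LinearMap.trace F V (f ^ n) - LinearMap.trace F W (g ^ n) = (q : F)) :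
    ∃ p : ℚ[X], aeval f (p.map (algebraMap ℚ F)) = 1 ∧ aeval g (p.map (algebraMap ℚ F)) = 0 := by
  obtain ⟨p, hp⟩ := rational_charpoly f g hc ht
  obtain ⟨q, hq⟩ := rational_charpoly g f hc.symm (fun n hn => by
    obtain ⟨q, hq⟩ := ht n hn
    exact ⟨-q, by rw [Rat.cast_neg, ← hq]; ring⟩)
  have hc' : IsCoprime p q := by
    rw [← hp, ← hq] at hc
    exact (Polynomial.isCoprime_map (algebraMap ℚ F)).mp hc
  obtain ⟨a, b, hab⟩ := hc'
  refine ⟨b * q, ?_, ?_⟩
  · have : b * q = 1 - a * p := by rw [← hab]; ring
    rw [this, Polynomial.map_sub, Polynomial.map_mul, hp, map_sub, map_mul,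
      LinearMap.aeval_self_charpoly, mul_zero, sub_zero]
    simp
  · rw [Polynomial.map_mul, hq, map_mul, LinearMap.aeval_self_charpoly, mul_zero]

end general

end Pool.Agent.Helper17.Sign
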