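import Mathlib

/-! Rationality of coprime polynomials from rationality of differences of power sums. -/

namespace Pool.Agent.Helper17.Sign

open Polynomial

variable {K : Type*} [Field K]

/-- `∏ (1 - a X)` as a power series. -/
noncomputable def Pser (s : Multiset K) : PowerSeries K :=
  (s.map fun a => 1 - PowerSeries.C a * PowerSeries.X).prod

/-- `∑_{n ≥ 1} (∑ a^n) X^n`. -/
noncomputable def Tser (s : Multiset K) : PowerSeries K :=
  PowerSeries.mk fun n => if n = 0 then 0 else (s.map (· ^ n)).sum

/-- `∏ (1 - a X)` as a polynomial. -/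
noncomputable def Ppol (s : Multiset K) : K[X] := (s.map fun a => 1 - C a * X).prod

lemma coe_Ppol (s : Multiset K) : ((Ppol s : K[X]) : PowerSeries K) = Pser s := by
  induction s using Multiset.induction_on with
  | empty => simp [Ppol, Pser]
  | cons a s ih =>
    have h1 : Ppol (a ::ₘ s) = (1 - C a * X) * Ppol s := by simp [Ppol]
    have h2 : Pser (a ::ₘ s) = (1 - PowerSeries.C a * PowerSeries.X) * Pser s := by simp [Pser]
    rw [h1, h2, Polynomial.coe_mul, ih]
    congr 1
    rw [Polynomial.coe_sub, Polynomial.coe_mul, Polynomial.coe_C, Polynomial.coe_X,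
      Polynomial.coe_one]

lemma Tser_cons (a : K) (s : Multiset K) :
    Tser (a ::ₘ s) = PowerSeries.mk (fun n => if n = 0 then 0 else a ^ n) + Tser s := by
  ext n
  simp only [Tser, PowerSeries.coeff_mk, map_add, Multiset.map_cons, Multiset.sum_cons]
  split_ifs <;> simp

lemma geo (a : K) :
    (1 - PowerSeries.C a * PowerSeries.X) *
      PowerSeries.mk (fun n => if n = 0 then 0 else a ^ n) = PowerSeries.C a * PowerSeries.X := by
  ext n
  rw [sub_mul, one_mul, mul_assoc, map_sub, PowerSeries.coeff_mk, PowerSeries.coeff_C_mul]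
  rcases n with _ | n
  · simp
  · rw [PowerSeries.coeff_succ_X_mul, PowerSeries.coeff_mk, PowerSeries.coeff_C_mul]
    rcases n with _ | n
    · simp
    · rw [PowerSeries.coeff_X]
      simp [pow_succ]
      ring

lemma logderiv (s : Multiset K) :
    PowerSeries.X * PowerSeries.derivative K (Pser s) = - (Pser s * Tser s) := by
  induction s using Multiset.induction_on with
  | empty =>
    have : (Tser (0 : Multiset K)) = 0 := by
      ext n; simp [Tser]
    have h1 : Pser (0 : Multiset K) = 1 := by simp [Pser]
    rw [this, h1]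
    simp
  | cons a s ih =>
    have h2 : Pser (a ::ₘ s) = (1 - PowerSeries.C a * PowerSeries.X) * Pser s := by simp [Pser]
    have hd : PowerSeries.derivative K (Pser (a ::ₘ s)) =
        (1 - PowerSeries.C a * PowerSeries.X) * PowerSeries.derivative K (Pser s)
          - PowerSeries.C a * Pser s := by
      rw [h2, Derivation.leibniz]
      have hX : (PowerSeries.derivative K) (1 - PowerSeries.C a * PowerSeries.X)
          = - PowerSeries.C a := by
        rw [map_sub, Derivation.map_one_eq_zero, zero_sub, Derivation.leibniz]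
        simp [PowerSeries.derivative_C]
      rw [hX]
      simp only [smul_eq_mul]
      ring
    rw [hd, Tser_cons, h2]
    have hg := geo a
    linear_combination (1 - PowerSeries.C a * PowerSeries.X) * ih + (Pser s) * hg

lemma constCoeff_Pser (s : Multiset K) : PowerSeries.constantCoeff (Pser s) = 1 := by
  induction s using Multiset.induction_on with
  | empty => simp [Pser]
  | cons a s ih =>
    have h2 : Pser (a ::ₘ s) = (1 - PowerSeries.C a * PowerSeries.X) * Pser s := by simp [Pser]
    rw [h2, map_mul, ih]; simp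

lemma natDegree_Ppol (s : Multiset K) : (Ppol s).natDegree ≤ s.card := by
  induction s using Multiset.induction_on with
  | empty => simp [Ppol]
  | cons a s ih =>
    have h1 : Ppol (a ::ₘ s) = (1 - C a * X) * Ppol s := by simp [Ppol]
    rw [h1, Multiset.card_cons]
    refine (Polynomial.natDegree_mul_le).trans ?_
    have : (1 - C a * X : K[X]).natDegree ≤ 1 := by
      refine (Polynomial.natDegree_sub_le _ _).trans ?_
      simp only [natDegree_one, zero_le, sup_of_le_right]
      exact (Polynomial.natDegree_C_mul_le a X).trans natDegree_X_le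
    omega

lemma reflect_Ppol (s : Multiset K) :
    (Ppol s).reflect s.card = (s.map fun a => X - C a).prod := by
  induction s using Multiset.induction_on with
  | empty => simp [Ppol]
  | cons a s ih =>
    have h1 : Ppol (a ::ₘ s) = (1 - C a * X) * Ppol s := by simp [Ppol]
    have hdeg : (1 - C a * X : K[X]).natDegree ≤ 1 := by
      refine (Polynomial.natDegree_sub_le _ _).trans ?_
      simp only [natDegree_one, zero_le, sup_of_le_right]
      exact (Polynomial.natDegree_C_mul_le a X).trans natDegree_X_le
    rw [h1, Multiset.card_cons, add_comm, Polynomial.reflect_mul _ _ hdeg (natDegree_Ppol s), ih,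
      Multiset.map_cons, Multiset.prod_cons]
    congr 1
    have e1 : (1 - C a * X : K[X]) = C 1 * X ^ 0 - C a * X ^ 1 := by simp
    rw [e1, Polynomial.reflect_sub, Polynomial.reflect_C_mul_X_pow, Polynomial.reflect_C_mul_X_pow]
    simp [Polynomial.revAt_le]

/-- Uniqueness of the solution of `X E' = E S`, `E(0) = 1` is expressed by the recursion
`n e_n = ∑ s_k e_{n-k}`. -/
lemma recursion (E S : PowerSeries K) (h : PowerSeries.X * PowerSeries.derivative K E = E * S)
    (n : ℕ) : (n : K) * PowerSeries.coeff n E =
      ∑ p ∈ Finset.HasAntidiagonal.antidiagonal n, PowerSeries.coeff p.1 E * PowerSeries.coeff p.2 S := by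
  rw [← PowerSeries.coeff_mul, ← h]
  rcases n with _ | n
  · simp
  · rw [PowerSeries.coeff_succ_X_mul, PowerSeries.coeff_derivative]
    push_cast; ring

/-- rational power sum differences give rational coefficients -/
lemma rational_coeff [CharZero K] (E S : PowerSeries K)
    (h : PowerSeries.X * PowerSeries.derivative K E = E * S)
    (h0 : PowerSeries.constantCoeff E = 1) (hS0 : PowerSeries.constantCoeff S = 0)
    (hS : ∀ n, ∃ q : ℚ, PowerSeries.coeff n S = (q : K)) (n : ℕ) :
    ∃ q : ℚ, PowerSeries.coeff n E = (q : K) := by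
  induction n using Nat.strong_induction_on with
  | _ n ih =>
    rcases Nat.eq_zero_or_pos n with rfl | hn
    · exact ⟨1, by simpa using h0⟩
    · have hrec := recursion E S h n
      have hsum : ∃ q : ℚ, ∑ p ∈ Finset.HasAntidiagonal.antidiagonal n,
          PowerSeries.coeff p.1 E * PowerSeries.coeff p.2 S = (q : K) := by
        have hterm : ∀ p ∈ Finset.HasAntidiagonal.antidiagonal n, ∃ q : ℚ,
            PowerSeries.coeff p.1 E * PowerSeries.coeff p.2 S = (q : K) := by
          intro p hp
          rw [Finset.HasAntidiagonal.mem_antidiagonal] at hp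
          by_cases hp2 : p.2 = 0
          · refine ⟨0, ?_⟩
            rw [hp2]
            have : PowerSeries.coeff 0 S = 0 := by simpa using hS0
            rw [this]; simp
          · obtain ⟨q1, h1⟩ := ih p.1 (by omega)
            obtain ⟨q2, h2⟩ := hS p.2
            exact ⟨q1 * q2, by rw [h1, h2]; push_cast; ring⟩
        choose! f hf using hterm
        refine ⟨∑ p ∈ Finset.HasAntidiagonal.antidiagonal n, f p, ?_⟩
        rw [Finset.sum_congr rfl hf]
        push_cast; rfl
      obtain ⟨q, hq⟩ := hsum
      refine ⟨q / n, ?_⟩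
      rw [hq] at hrec
      have hn' : (n : K) ≠ 0 := by exact_mod_cast hn.ne'
      push_cast
      rw [← hrec]; field_simp

/-- A `ℚ`-linear retraction `K → ℚ`. -/
lemma exists_retraction (K : Type*) [Field K] [CharZero K] :
    ∃ l : K →ₗ[ℚ] ℚ, ∀ q : ℚ, l (q : K) = q := by
  obtain ⟨l, hl⟩ := LinearMap.exists_leftInverse_of_injective (Algebra.linearMap ℚ K)
    (LinearMap.ker_eq_bot.mpr (algebraMap ℚ K).injective)
  refine ⟨l, fun q => ?_⟩
  have := LinearMap.congr_fun hl q
  simpa using this

/-- Main rationality lemma, one-sided. -/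
lemma rational_of_coprime [CharZero K] (s t : Multiset K)
    (hst : ∀ n, 1 ≤ n → ∃ q : ℚ, (s.map (· ^ n)).sum - (t.map (· ^ n)).sum = (q : K))
    (hc : IsCoprime (Ppol s) (Ppol t)) :
    ∃ p : ℚ[X], p.map (algebraMap ℚ K) = Ppol s := by
  obtain ⟨l, hl⟩ := exists_retraction K
  set P := Pser s with hP
  set Q := Pser t with hQ
  have hP0 : PowerSeries.constantCoeff P ≠ 0 := by rw [hP, constCoeff_Pser]; exact one_ne_zero
  set E := Q * P⁻¹ with hE
  have hPE : P * E = Q := by
    rw [hE, mul_comm, mul_assoc, PowerSeries.inv_mul_cancel _ hP0, mul_one]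
  have hE0 : PowerSeries.constantCoeff E = 1 := by
    have := congrArg PowerSeries.constantCoeff hPE
    rw [map_mul, hP, hQ, constCoeff_Pser, constCoeff_Pser, one_mul] at this
    exact this
  have hlog : PowerSeries.X * PowerSeries.derivative K E = E * (Tser s - Tser t) := by
    have h1 := logderiv s
    have h2 := logderiv t
    have h3 : PowerSeries.derivative K Q = P * PowerSeries.derivative K E +
        E * PowerSeries.derivative K P := by
      rw [← hPE, Derivation.leibniz]; simp only [smul_eq_mul]
    rw [← hP] at h1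
    rw [← hQ] at h2
    have h4 : P * (PowerSeries.X * PowerSeries.derivative K E) = P * (E * (Tser s - Tser t)) := by
      have : P * (PowerSeries.X * PowerSeries.derivative K E) =
          PowerSeries.X * PowerSeries.derivative K Q - E * (PowerSeries.X *
            PowerSeries.derivative K P) := by
        rw [h3]; ring
      rw [this, h1, h2, ← hPE]; ring
    have hPne : P ≠ 0 := by
      intro h; rw [h] at hP0; simp at hP0
    exact mul_left_cancel₀ hPne h4
  have hrat : ∀ n, ∃ q : ℚ, PowerSeries.coeff n E = (q : K) := by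
    refine rational_coeff E (Tser s - Tser t) hlog hE0 ?_ ?_
    · rw [← PowerSeries.coeff_zero_eq_constantCoeff_apply]
      simp [Tser]
    · intro n
      rcases Nat.eq_zero_or_pos n with rfl | hn
      · exact ⟨0, by simp [Tser]⟩
      · obtain ⟨q, hq⟩ := hst n hn
        refine ⟨q, ?_⟩
        rw [← hq]
        simp [Tser, hn.ne']
  choose e he using hrat
  -- apply the retraction to the coefficients
  let p1 : ℚ[X] := ∑ i ∈ Finset.range ((Ppol s).natDegree + 1),
    Polynomial.monomial i (l ((Ppol s).coeff i))
  let q1 : ℚ[X] := ∑ i ∈ Finset.range ((Ppol t).natDegree + 1),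
    Polynomial.monomial i (l ((Ppol t).coeff i))
  have hp1 : ∀ n, p1.coeff n = l ((Ppol s).coeff n) := by
    intro n
    simp only [p1, Polynomial.finsetSum_coeff, Polynomial.coeff_monomial]
    rw [Finset.sum_ite_eq']
    split_ifs with h
    · rfl
    · rw [Finset.mem_range, not_lt] at h
      rw [Polynomial.coeff_eq_zero_of_natDegree_lt (by omega), map_zero]
  have hq1 : ∀ n, q1.coeff n = l ((Ppol t).coeff n) := by
    intro n
    simp only [q1, Polynomial.finsetSum_coeff, Polynomial.coeff_monomial]
    rw [Finset.sum_ite_eq']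
    split_ifs with h
    · rfl
    · rw [Finset.mem_range, not_lt] at h
      rw [Polynomial.coeff_eq_zero_of_natDegree_lt (by omega), map_zero]
  have hPc : ∀ n, PowerSeries.coeff n P = (Ppol s).coeff n := by
    intro n; rw [hP, ← coe_Ppol, Polynomial.coeff_coe]
  have hQc : ∀ n, PowerSeries.coeff n Q = (Ppol t).coeff n := by
    intro n; rw [hQ, ← coe_Ppol, Polynomial.coeff_coe]
  -- q1 = p1 * E
  have hq1E : ((q1.map (algebraMap ℚ K) : K[X]) : PowerSeries K) =
      ((p1.map (algebraMap ℚ K) : K[X]) : PowerSeries K) * E := by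
    ext n
    rw [Polynomial.coeff_coe, Polynomial.coeff_map, hq1, ← hQc, ← hPE, PowerSeries.coeff_mul,
      PowerSeries.coeff_mul, map_sum, map_sum]
    refine Finset.sum_congr rfl fun x _ => ?_
    rw [Polynomial.coeff_coe, Polynomial.coeff_map, hp1, he x.2, hPc]
    have : (Ppol s).coeff x.1 * ((e x.2 : ℚ) : K) = (e x.2) • (Ppol s).coeff x.1 := by
      rw [Algebra.smul_def, mul_comm]; rfl
    rw [this, map_smul, smul_eq_mul, map_mul, mul_comm]
    rfl
  have hcross : Ppol t * p1.map (algebraMap ℚ K) = Ppol s * q1.map (algebraMap ℚ K) := by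
    apply Polynomial.coe_injective
    rw [Polynomial.coe_mul, Polynomial.coe_mul, hq1E, coe_Ppol, coe_Ppol, ← hP, ← hQ, ← hPE]
    ring
  have hdvd : Ppol s ∣ p1.map (algebraMap ℚ K) := by
    have h1 : Ppol s ∣ Ppol t * p1.map (algebraMap ℚ K) := ⟨_, hcross⟩
    exact hc.dvd_of_dvd_mul_left h1
  obtain ⟨g, hg⟩ := hdvd
  have hs0 : (Ppol s).coeff 0 = 1 := by
    rw [← hPc, PowerSeries.coeff_zero_eq_constantCoeff_apply, hP, constCoeff_Pser]
  have hp10 : (p1.map (algebraMap ℚ K)).coeff 0 = 1 := by
    rw [Polynomial.coeff_map, hp1, hs0]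
    have : l (1 : K) = 1 := by simpa using hl 1
    rw [this, map_one]
  have hp1ne : p1.map (algebraMap ℚ K) ≠ 0 := by
    intro h; rw [h] at hp10; simp at hp10
  have hsne : Ppol s ≠ 0 := by
    intro h; rw [h] at hs0; simp at hs0
  have hgne : g ≠ 0 := by
    rintro rfl; rw [mul_zero] at hg; exact hp1ne hg
  have hdeg : (p1.map (algebraMap ℚ K)).natDegree ≤ (Ppol s).natDegree := by
    rw [Polynomial.natDegree_map]
    refine Polynomial.natDegree_le_iff_coeff_eq_zero.mpr fun n hn => ?_
    rw [hp1, Polynomial.coeff_eq_zero_of_natDegree_lt hn, map_zero]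
  have hgdeg : g.natDegree = 0 := by
    rw [hg, Polynomial.natDegree_mul hsne hgne] at hdeg
    omega
  obtain ⟨c, hc'⟩ : ∃ c : K, g = C c := ⟨g.coeff 0, Polynomial.eq_C_of_natDegree_eq_zero hgdeg⟩
  have hc1 : c = 1 := by
    rw [hg, hc', Polynomial.mul_coeff_zero, hs0, Polynomial.coeff_C_zero, one_mul] at hp10
    exact hp10
  refine ⟨p1, ?_⟩
  rw [hg, hc', hc1]; simp

/-- Coprimality of the reversed products. -/
lemma coprime_Ppol [IsAlgClosed K] (s t : Multiset K) (h : ∀ a ∈ s, a ∉ t) :
    IsCoprime (Ppol s) (Ppol t) := by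
  rw [Polynomial.isCoprime_iff_aeval_ne_zero_of_isAlgClosed K K]
  intro x
  by_contra hcon
  push Not at hcon
  obtain ⟨h1, h2⟩ := hcon
  have key : ∀ s : Multiset K, aeval x (Ppol s) = 0 → ∃ a ∈ s, a * x = 1 := by
    intro s hs
    rw [Polynomial.coe_aeval_eq_eval] at hs
    simp only [Ppol, Polynomial.eval_multiset_prod, Multiset.map_map] at hs
    rw [Multiset.prod_eq_zero_iff] at hs
    rw [Multiset.mem_map] at hs
    obtain ⟨a, ha, hz⟩ := hs
    refine ⟨a, ha, ?_⟩
    simp only [Function.comp_apply, eval_sub, eval_one, eval_mul, eval_C, eval_X] at hz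
    exact (sub_eq_zero.mp hz).symm
  obtain ⟨a, ha, hax⟩ := key s h1
  obtain ⟨b, hb, hbx⟩ := key t h2
  have hx : x ≠ 0 := by rintro rfl; simp at hax
  have : a = b := mul_right_cancel₀ hx (hax.trans hbx.symm)
  exact h a ha (this ▸ hb)

/-- **Rationality**: if two multisets of an algebraically closed field of characteristic zero are
disjoint and the differences of their power sums are rational, both monic polynomials with these
roots have rational coefficients. -/
theorem rational_of_disjoint [CharZero K] [IsAlgClosed K] (s t : Multiset K)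
    (hst : ∀ n, 1 ≤ n → ∃ q : ℚ, (s.map (· ^ n)).sum - (t.map (· ^ n)).sum = (q : K))
    (h : ∀ a ∈ s, a ∉ t) :
    ∃ p : ℚ[X], p.map (algebraMap ℚ K) = (s.map fun a => X - C a).prod := by
  obtain ⟨p, hp⟩ := rational_of_coprime s t hst (coprime_Ppol s t h)
  refine ⟨p.reflect s.card, ?_⟩
  rw [← reflect_Ppol, ← hp, Polynomial.reflect_map]

end Pool.Agent.Helper17.Sign
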