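import Mathlib

/-! If every subspace stable under an algebra of block diagonal operators is graded, the algebra
contains the block projector. -/

namespace Pool.Agent.Helper17.Sign

variable {F R : Type*} [Field F] [Ring R] [Algebra F R]

/-- The left ideal of elements killing the vectors of `T`. -/
def annIdeal {V : Type*} [AddCommGroup V] [Module F V] (ρ : R →ₐ[F] Module.End F V)
    (T : Finset V) : Ideal R where
  carrier := {r | ∀ m ∈ T, ρ r m = 0}
  add_mem' := by
    intro a b ha hb m hm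
    simp [ha m hm, hb m hm]
  zero_mem' := by intro m _; simp
  smul_mem' := by
    intro c x hx m hm
    simp [hx m hm]

lemma mem_annIdeal {V : Type*} [AddCommGroup V] [Module F V] (ρ : R →ₐ[F] Module.End F V)
    (T : Finset V) (r : R) : r ∈ annIdeal ρ T ↔ ∀ m ∈ T, ρ r m = 0 := Iff.rfl

lemma ann_step {V : Type*} [AddCommGroup V] [Module F V] [FiniteDimensional F V]
    (ρ : R →ₐ[F] Module.End F V) (M : Ideal R) (hM : M ≠ ⊤) (h : ∀ r, ρ r = 0 → r ∈ M) :
    ∃ (T : Finset V) (m : V), (∃ r ∈ annIdeal ρ T, r ∉ M) ∧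
      ∀ r ∈ annIdeal ρ T, ρ r m = 0 → r ∈ M := by
  classical
  by_contra hcon
  push Not at hcon
  have hall : ∀ T : Finset V, ∃ r ∈ annIdeal ρ T, r ∉ M := by
    intro T
    induction T using Finset.induction_on with
    | empty =>
      refine ⟨1, by simp [mem_annIdeal], ?_⟩
      intro h1
      exact hM ((Ideal.eq_top_iff_one M).mpr h1)
    | insert m T _ ih =>
      obtain ⟨r, hr, hrm, hrM⟩ := hcon T m ih
      refine ⟨r, ?_, hrM⟩
      rw [mem_annIdeal]
      intro x hx
      rcases Finset.mem_insert.mp hx with rfl | hx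
      · exact hrm
      · exact hr x hx
  let b := Module.finBasis F V
  obtain ⟨r, hr, hrM⟩ := hall (Finset.univ.image b)
  apply hrM
  apply h
  apply b.ext
  intro i
  rw [mem_annIdeal] at hr
  simpa using hr (b i) (by simp)

variable {Vp Vm : Type*} [AddCommGroup Vp] [Module F Vp] [FiniteDimensional F Vp]
  [AddCommGroup Vm] [Module F Vm] [FiniteDimensional F Vm]

/-- The key statement for an algebra `R` acting on `Vp` and `Vm`. -/
theorem exists_proj (ρp : R →ₐ[F] Module.End F Vp) (ρm : R →ₐ[F] Module.End F Vm)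
    (h : ∀ Γ : Submodule F (Vp × Vm), (∀ r : R, ∀ x ∈ Γ, (ρp r x.1, ρm r x.2) ∈ Γ) →
      ∀ x ∈ Γ, (x.1, (0 : Vm)) ∈ Γ) :
    ∃ r : R, ρp r = 1 ∧ ρm r = 0 := by
  classical
  let Ip : Ideal R := RingHom.ker ρp
  let Im : Ideal R := RingHom.ker ρm
  by_cases htop : Ip ⊔ Im = ⊤
  · have h1 : (1 : R) ∈ Ip ⊔ Im := by rw [htop]; trivial
    obtain ⟨a, ha, b, hb, hab⟩ := Submodule.mem_sup.mp h1
    have ha' : ρp a = 0 := ha
    have hb' : ρm b = 0 := hb
    refine ⟨b, ?_, hb'⟩
    have := congrArg ρp hab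
    rw [map_add, ha', zero_add, map_one] at this
    exact this
  · exfalso
    obtain ⟨M, hMmax, hM⟩ := Ideal.exists_le_maximal _ htop
    have hMne : M ≠ ⊤ := hMmax.ne_top
    obtain ⟨T, m, ⟨r0, hr0, hr0M⟩, hT⟩ := ann_step ρp M hMne (fun r hr => hM
      (Submodule.mem_sup_left (show r ∈ Ip from hr)))
    obtain ⟨T', m', ⟨r1, hr1, hr1M⟩, hT'⟩ := ann_step ρm M hMne (fun r hr => hM
      (Submodule.mem_sup_right (show r ∈ Im from hr)))
    -- `K' ⊔ M = ⊤`
    have hsup : annIdeal ρm T' ⊔ M = ⊤ := by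
      by_contra hne
      have := hMmax.eq_of_le hne le_sup_right
      exact hr1M (this ▸ Submodule.mem_sup_left hr1)
    obtain ⟨r', hr', x, hx, hrx⟩ := Submodule.mem_sup.mp
      (show r0 ∈ annIdeal ρm T' ⊔ M by rw [hsup]; trivial)
    let Γ : Submodule F (Vp × Vm) :=
      { carrier := {v | ∃ r ∈ annIdeal ρp T, ∃ s ∈ annIdeal ρm T', r - s ∈ M ∧
          v = (ρp r m, ρm s m')}
        add_mem' := by
          rintro _ _ ⟨r, hr, s, hs, hrs, rfl⟩ ⟨r2, hr2, s2, hs2, hrs2, rfl⟩
          refine ⟨r + r2, add_mem hr hr2, s + s2, add_mem hs hs2, ?_, by simp⟩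
          have : r + r2 - (s + s2) = (r - s) + (r2 - s2) := by abel
          rw [this]; exact add_mem hrs hrs2
        zero_mem' := ⟨0, zero_mem _, 0, zero_mem _, by simp, by simp; rfl⟩
        smul_mem' := by
          rintro c _ ⟨r, hr, s, hs, hrs, rfl⟩
          refine ⟨algebraMap F R c * r, Ideal.mul_mem_left _ _ hr, algebraMap F R c * s,
            Ideal.mul_mem_left _ _ hs, ?_, ?_⟩
          · rw [← mul_sub]; exact Ideal.mul_mem_left _ _ hrs
          · simp [map_mul, AlgHom.commutes, Module.algebraMap_end_apply] }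
    have hstab : ∀ r : R, ∀ x ∈ Γ, (ρp r x.1, ρm r x.2) ∈ Γ := by
      rintro u _ ⟨r, hr, s, hs, hrs, rfl⟩
      refine ⟨u * r, Ideal.mul_mem_left _ _ hr, u * s, Ideal.mul_mem_left _ _ hs, ?_, ?_⟩
      · rw [← mul_sub]; exact Ideal.mul_mem_left _ _ hrs
      · simp [map_mul]
    have hmem : (ρp r0 m, ρm r' m') ∈ Γ := by
      refine ⟨r0, hr0, r', hr', ?_, rfl⟩
      have : r0 - r' = x := by rw [← hrx]; abel
      rw [this]; exact hx
    obtain ⟨r, hr, s, hs, hrs, heq⟩ := h Γ hstab _ hmem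
    have h1 : ρp r0 m = ρp r m := congrArg Prod.fst heq
    have h2 : (0 : Vm) = ρm s m' := congrArg Prod.snd heq
    have hsM : s ∈ M := hT' s hs h2.symm
    have hrM : r ∈ M := by
      have : r = (r - s) + s := by abel
      rw [this]; exact add_mem hrs hsM
    have hr0r : r0 - r ∈ M := hT _ (sub_mem hr0 hr) (by rw [map_sub, LinearMap.sub_apply, h1, sub_self])
    apply hr0M
    have : r0 = (r0 - r) + r := by abel
    rw [this]; exact add_mem hr0r hrM

end Pool.Agent.Helper17.Sign
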