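import Pool.Agent.Helper17.Sign.Density

namespace Pool.Agent.Helper17.Sign

open Polynomial Module

section
variable {K : Type*} [Field K]

/-- Uniqueness of the power series with given logarithmic derivative. -/
lemma unique_of_logderiv [CharZero K] (E₁ E₂ S : PowerSeries K)
    (h₁ : PowerSeries.X * PowerSeries.derivative K E₁ = E₁ * S)
    (h₂ : PowerSeries.X * PowerSeries.derivative K E₂ = E₂ * S)
    (c₁ : PowerSeries.constantCoeff E₁ = 1) (c₂ : PowerSeries.constantCoeff E₂ = 1)
    (hS : PowerSeries.constantCoeff S = 0) : E₁ = E₂ := by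
  ext n
  induction n using Nat.strong_induction_on with
  | _ n ih =>
    rcases Nat.eq_zero_or_pos n with rfl | hn
    · rw [PowerSeries.coeff_zero_eq_constantCoeff_apply,
        PowerSeries.coeff_zero_eq_constantCoeff_apply, c₁, c₂]
    · have r₁ := recursion E₁ S h₁ n
      have r₂ := recursion E₂ S h₂ n
      have hsum : ∑ p ∈ Finset.HasAntidiagonal.antidiagonal n,
          PowerSeries.coeff p.1 E₁ * PowerSeries.coeff p.2 S =
          ∑ p ∈ Finset.HasAntidiagonal.antidiagonal n,
          PowerSeries.coeff p.1 E₂ * PowerSeries.coeff p.2 S := by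
        refine Finset.sum_congr rfl fun p hp => ?_
        rw [Finset.HasAntidiagonal.mem_antidiagonal] at hp
        by_cases hp2 : p.2 = 0
        · rw [hp2, PowerSeries.coeff_zero_eq_constantCoeff_apply, hS, mul_zero, mul_zero]
        · rw [ih p.1 (by omega)]
      have hn' : (n : K) ≠ 0 := by exact_mod_cast hn.ne'
      exact mul_left_cancel₀ hn' (r₁.trans (hsum.trans r₂.symm))

lemma coeff_zero_Ppol (s : Multiset K) : (Ppol s).coeff 0 = 1 := by
  rw [← Polynomial.coeff_coe, coe_Ppol, PowerSeries.coeff_zero_eq_constantCoeff_apply,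
    constCoeff_Pser]

lemma Ppol_ne_zero (s : Multiset K) : Ppol s ≠ 0 := by
  intro h
  have := coeff_zero_Ppol s
  rw [h] at this
  simp at this

lemma zero_not_mem_of_natDegree (s : Multiset K) (h : (Ppol s).natDegree = s.card) :
    (0 : K) ∉ s := by
  intro h0
  obtain ⟨t, rfl⟩ := Multiset.exists_cons_of_mem h0
  have h1 : Ppol (0 ::ₘ t) = Ppol t := by simp [Ppol]
  rw [h1, Multiset.card_cons] at h
  have := natDegree_Ppol t
  omega

lemma dvd_Ppol_of_mem (s : Multiset K) (a : K) (h : a ∈ s) : (1 - C a * X) ∣ Ppol s := by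
  obtain ⟨t, rfl⟩ := Multiset.exists_cons_of_mem h
  exact ⟨Ppol t, by simp [Ppol]⟩

lemma disjoint_of_coprime (s t : Multiset K) (hc : IsCoprime (Ppol s) (Ppol t))
    (hs : (0 : K) ∉ s) : ∀ a ∈ s, a ∉ t := by
  intro a ha hb
  have hu := hc.isUnit_of_dvd' (dvd_Ppol_of_mem s a ha) (dvd_Ppol_of_mem t a hb)
  have ha0 : a ≠ 0 := by rintro rfl; exact hs ha
  have hdeg := Polynomial.natDegree_eq_zero_of_isUnit hu
  have : (1 - C a * X : K[X]) = C (-a) * X + C 1 := by simp; ring
  rw [this, Polynomial.natDegree_linear (neg_ne_zero.mpr ha0)] at hdeg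
  exact one_ne_zero hdeg

end

/-- `Q/P`, in lowest terms and with `P(0) = Q(0) = 1`, is the rational function
`exp (∑_{n ≥ 1} s_n t^n / n)`; this is expressed by its logarithmic derivative
`t (Q' P - Q P') = P Q ∑_{n ≥ 1} s_n t^n`. -/
def IsZeta (s : ℕ → ℚ) (P Q : ℚ[X]) : Prop :=
  P.coeff 0 = 1 ∧ Q.coeff 0 = 1 ∧ IsCoprime P Q ∧
    ((X * (derivative Q * P - Q * derivative P) : ℚ[X]) : PowerSeries ℚ) =
      (P : PowerSeries ℚ) * (Q : PowerSeries ℚ) *
        PowerSeries.mk (fun n => if n = 0 then 0 else s n)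

section
variable {F V W : Type*} [Field F] [CharZero F] [AddCommGroup V] [Module F V]
  [FiniteDimensional F V] [AddCommGroup W] [Module F W] [FiniteDimensional F W]

/-- If the zeta function of `(f,g)` has total degree `dim V + dim W` then the characteristic
polynomials are coprime. -/
theorem coprime_of_zeta (f : Module.End F V) (g : Module.End F W) (s : ℕ → ℚ)
    (hs : ∀ n, 1 ≤ n → LinearMap.trace F V (f ^ n) - LinearMap.trace F W (g ^ n) = (s n : F))
    (P Q : ℚ[X]) (hz : IsZeta s P Q) (hdeg : P.natDegree + Q.natDegree = finrank F V + finrank F W) :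
    IsCoprime f.charpoly g.charpoly := by
  set K := AlgebraicClosure F with hK
  obtain ⟨hP0, hQ0, hPQ, hlog⟩ := hz
  set φ : ℚ →+* K := algebraMap ℚ K with hφ
  set PK : K[X] := P.map φ with hPK
  set QK : K[X] := Q.map φ with hQK
  set S : PowerSeries K := Tser (eig f) - Tser (eig g) with hS
  have hScoeff : S = PowerSeries.map φ (PowerSeries.mk (fun n => if n = 0 then 0 else s n)) := by
    ext n
    rw [PowerSeries.coeff_map, PowerSeries.coeff_mk]
    simp only [hS, map_sub, Tser, PowerSeries.coeff_mk]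
    split_ifs with hn
    · simp
    · rw [← trace_pow, ← trace_pow, ← map_sub, hs n (by omega)]
      simp [hφ]
  have hS0 : PowerSeries.constantCoeff S = 0 := by
    rw [← PowerSeries.coeff_zero_eq_constantCoeff_apply]
    simp [hS, Tser]
  have hPK0 : PK.coeff 0 = 1 := by rw [hPK, coeff_map, hP0, map_one]
  have hQK0 : QK.coeff 0 = 1 := by rw [hQK, coeff_map, hQ0, map_one]
  have hPKne : PK ≠ 0 := by intro h; rw [h] at hPK0; simp at hPK0
  have hQKne : QK ≠ 0 := by intro h; rw [h] at hQK0; simp at hQK0
  have hcop : IsCoprime PK QK := hPQ.map (Polynomial.mapRingHom φ)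
  -- log derivative identity over K
  have hlogK : PowerSeries.X * (PowerSeries.derivative K (QK : PowerSeries K) * (PK : PowerSeries K)
      - (QK : PowerSeries K) * PowerSeries.derivative K (PK : PowerSeries K)) =
      (PK : PowerSeries K) * (QK : PowerSeries K) * S := by
    have h1 := congrArg (PowerSeries.map φ) hlog
    rw [map_mul, map_mul, ← hScoeff, ← Polynomial.polynomial_map_coe,
      ← Polynomial.polynomial_map_coe, ← Polynomial.polynomial_map_coe, ← hPK, ← hQK] at h1
    rw [← h1, PowerSeries.derivative_coe, PowerSeries.derivative_coe]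
    simp only [Polynomial.map_mul, Polynomial.map_sub, Polynomial.map_X, ← Polynomial.derivative_map,
      Polynomial.coe_mul, Polynomial.coe_sub, Polynomial.coe_X, ← hPK, ← hQK]
  -- the two quotients agree
  have hPc : PowerSeries.constantCoeff (PK : PowerSeries K) ≠ 0 := by
    rw [← PowerSeries.coeff_zero_eq_constantCoeff_apply, Polynomial.coeff_coe, hPK0]
    exact one_ne_zero
  have hPhc : PowerSeries.constantCoeff (Pser (eig f)) ≠ 0 := by
    rw [constCoeff_Pser]; exact one_ne_zero
  have quot : ∀ (p q : PowerSeries K), PowerSeries.constantCoeff p = 1 →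
      PowerSeries.constantCoeff q = 1 →
      PowerSeries.X * (PowerSeries.derivative K q * p - q * PowerSeries.derivative K p) =
        p * q * S →
      PowerSeries.X * PowerSeries.derivative K (q * p⁻¹) = q * p⁻¹ * S ∧
        PowerSeries.constantCoeff (q * p⁻¹) = 1 := by
    intro p q hp hq h
    have hp' : PowerSeries.constantCoeff p ≠ 0 := by rw [hp]; exact one_ne_zero
    have hinv : p * p⁻¹ = 1 := PowerSeries.mul_inv_cancel _ hp'
    constructor
    · set E := q * p⁻¹ with hE
      have hqE : q = p * E := by rw [hE, mul_comm q, ← mul_assoc, hinv, one_mul]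
      have hd : PowerSeries.derivative K q = p * PowerSeries.derivative K E +
          E * PowerSeries.derivative K p := by
        rw [hqE, Derivation.leibniz]; simp only [smul_eq_mul]
      have hpne : p ≠ 0 := by rintro rfl; simp at hp'
      have h4 : p ^ 2 * (PowerSeries.X * PowerSeries.derivative K E) = p ^ 2 * (E * S) := by
        rw [hd] at h
        rw [hqE] at h
        linear_combination h
      exact mul_left_cancel₀ (pow_ne_zero 2 hpne) h4
    · rw [map_mul, hq, PowerSeries.constantCoeff_inv, hp]; simp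
  obtain ⟨e1, e1'⟩ := quot (PK : PowerSeries K) (QK : PowerSeries K)
    (by rw [← PowerSeries.coeff_zero_eq_constantCoeff_apply, Polynomial.coeff_coe, hPK0])
    (by rw [← PowerSeries.coeff_zero_eq_constantCoeff_apply, Polynomial.coeff_coe, hQK0]) hlogK
  obtain ⟨e2, e2'⟩ := quot (Pser (eig f)) (Pser (eig g)) (constCoeff_Pser _) (constCoeff_Pser _) (by
    have h1 := logderiv (eig f)
    have h2 := logderiv (eig g)
    rw [hS]
    linear_combination (Pser (eig f)) * h2 - (Pser (eig g)) * h1)
  have heq := unique_of_logderiv _ _ S e1 e2 e1' e2' hS0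
  have hcross : QK * Ppol (eig f) = Ppol (eig g) * PK := by
    apply Polynomial.coe_injective
    rw [Polynomial.coe_mul, Polynomial.coe_mul, coe_Ppol, coe_Ppol]
    have i1 : (PK : PowerSeries K) * (PK : PowerSeries K)⁻¹ = 1 := PowerSeries.mul_inv_cancel _ hPc
    have i2 : Pser (eig f) * (Pser (eig f))⁻¹ = 1 := PowerSeries.mul_inv_cancel _ hPhc
    linear_combination (PK : PowerSeries K) * Pser (eig f) * heq
      - (QK : PowerSeries K) * Pser (eig f) * i1 + Pser (eig g) * (PK : PowerSeries K) * i2
  have hd1 : PK ∣ Ppol (eig f) := hcop.dvd_of_dvd_mul_left ⟨Ppol (eig g), by rw [hcross]; ring⟩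
  have hd2 : QK ∣ Ppol (eig g) := by
    refine hcop.symm.dvd_of_dvd_mul_left ⟨Ppol (eig f), ?_⟩
    rw [mul_comm, ← hcross]
  have l1 := Polynomial.natDegree_le_of_dvd hd1 (Ppol_ne_zero _)
  have l2 := Polynomial.natDegree_le_of_dvd hd2 (Ppol_ne_zero _)
  have m1 := natDegree_Ppol (eig f)
  have m2 := natDegree_Ppol (eig g)
  have c1 := card_eig f
  have c2 := card_eig g
  have n1 : PK.natDegree = P.natDegree := natDegree_map _
  have n2 : QK.natDegree = Q.natDegree := natDegree_map _
  have hdf : (Ppol (eig f)).natDegree = (eig f).card := by omega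
  have hdg : (Ppol (eig g)).natDegree = (eig g).card := by omega
  have hPf : (Ppol (eig f)).natDegree = PK.natDegree := by omega
  have hQg : (Ppol (eig g)).natDegree = QK.natDegree := by omega
  -- equality up to a constant
  have ass : ∀ (A B : K[X]), A ∣ B → B ≠ 0 → B.natDegree = A.natDegree → Associated A B := by
    intro A B hAB hB hdeg
    obtain ⟨c, rfl⟩ := hAB
    have hA : A ≠ 0 := left_ne_zero_of_mul hB
    have hc : c ≠ 0 := right_ne_zero_of_mul hB
    rw [Polynomial.natDegree_mul hA hc] at hdeg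
    have hc0 : c.natDegree = 0 := by omega
    have hcu : IsUnit c := by
      rw [Polynomial.eq_C_of_natDegree_eq_zero hc0]
      refine Polynomial.isUnit_C.mpr (isUnit_iff_ne_zero.mpr ?_)
      intro h
      apply hc
      rw [Polynomial.eq_C_of_natDegree_eq_zero hc0, h, C_0]
    obtain ⟨w, rfl⟩ := hcu
    exact ⟨w, rfl⟩
  have a1 := ass _ _ hd1 (Ppol_ne_zero _) hPf
  have a2 := ass _ _ hd2 (Ppol_ne_zero _) hQg
  have hcop2 : IsCoprime (Ppol (eig f)) (Ppol (eig g)) := by
    rw [← isCoprime_comm]
    obtain ⟨w1, h1⟩ := a1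
    obtain ⟨w2, h2⟩ := a2
    rw [← h1, ← h2]
    exact (isCoprime_mul_unit_right_left w2.isUnit _ _).mpr
      ((isCoprime_mul_unit_right_right w1.isUnit _ _).mpr hcop.symm)
  rw [coprime_iff_eig]
  exact disjoint_of_coprime _ _ hcop2 (zero_not_mem_of_natDegree _ hdf)

end

end Pool.Agent.Helper17.Sign
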