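import Mathlib
import Pool.Agent.Helper17.Sign.Numeric
import Pool.Agent.Helper17.Sign.Stable

/-! Descent from coefficients `F` to rational coefficients for the even projector, and the
argument on two-sided ideals used for the domination criterion. -/

namespace Pool.Agent.Helper17.Sign

open Polynomial Module

variable {F Vp Vm : Type*} [Field F] [CharZero F] [AddCommGroup Vp] [Module F Vp]
  [FiniteDimensional F Vp] [AddCommGroup Vm] [Module F Vm] [FiniteDimensional F Vm]

/-- If the even projector is an `F`-combination of algebraic classes, it is algebraic. -/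
lemma proj_mem_of_span (S : Subring (Module.End F Vp × Module.End F Vm))
    (smul_mem : ∀ (q : ℚ) (u : Module.End F Vp × Module.End F Vm), u ∈ S → (q : F) • u ∈ S)
    (trace_rat : ∀ u ∈ S, ∃ q : ℚ, LinearMap.trace F Vp u.1 - LinearMap.trace F Vm u.2 = (q : F))
    (h : ((1 : Module.End F Vp), (0 : Module.End F Vm)) ∈
      Submodule.span F (S : Set (Module.End F Vp × Module.End F Vm))) :
    ((1 : Module.End F Vp), (0 : Module.End F Vm)) ∈ S := by
  have hpow : ∀ u ∈ S, ∀ n : ℕ, ∃ q : ℚ,
      LinearMap.trace F Vp (u.1 ^ n) - LinearMap.trace F Vm (u.2 ^ n) = (q : F) := by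
    intro u hu n
    have := trace_rat (u ^ n) (pow_mem hu n)
    simpa using this
  obtain ⟨u, hu, hc⟩ : ∃ u ∈ S, IsCoprime u.1.charpoly u.2.charpoly := by
    rw [Submodule.mem_span_iff_exists_finset_subset] at h
    obtain ⟨f, t, ht, -, hsum⟩ := h
    let e := t.equivFin
    have hs : ((1 : Module.End F Vp), (0 : Module.End F Vm)) =
        ∑ j, f (e.symm j) • ((e.symm j : Module.End F Vp × Module.End F Vm)) := by
      rw [← hsum, ← Finset.sum_coe_sort t]
      exact (Equiv.sum_comp e.symm fun a : t => f a • (a : Module.End F Vp × Module.End F Vm)).symm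
    have h1 : ∑ j, f (e.symm j) • ((e.symm j : Module.End F Vp × Module.End F Vm)).1 = 1 := by
      have := congrArg Prod.fst hs
      rw [Prod.fst_sum] at this
      simpa using this.symm
    have h2 : ∑ j, f (e.symm j) • ((e.symm j : Module.End F Vp × Module.End F Vm)).2 = 0 := by
      have := congrArg Prod.snd hs
      rw [Prod.snd_sum] at this
      simpa using this.symm
    obtain ⟨x, hx⟩ := exists_rational_combination
      (fun j => ((e.symm j : Module.End F Vp × Module.End F Vm)).1)
      (fun j => ((e.symm j : Module.End F Vp × Module.End F Vm)).2) (fun j => f (e.symm j)) (by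
        rw [h1, h2]
        have : (0 : Module.End F Vm).charpoly = X ^ finrank F Vm := by
          rw [LinearMap.charpoly_eq_X_pow_iff]
          intro m; exact ⟨1, by simp⟩
        rw [this, map_pow, aeval_X, one_pow]
        exact isUnit_one)
    refine ⟨∑ j, (x j : F) • ((e.symm j : Module.End F Vp × Module.End F Vm)), ?_, ?_⟩
    · exact sum_mem fun j _ => smul_mem _ _ (ht (e.symm j).2)
    · have := coprime_of_isUnit _ _ hx
      rw [Prod.fst_sum, Prod.snd_sum]
      simpa using this
  obtain ⟨p, hp1, hp2⟩ := exists_polynomial u.1 u.2 hc (fun n _ => hpow u hu n)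
  have hmem : ∀ q : ℚ[X], (aeval u.1 (q.map (algebraMap ℚ F)),
      aeval u.2 (q.map (algebraMap ℚ F))) ∈ S := by
    intro q
    have heq : (aeval u.1 (q.map (algebraMap ℚ F)), aeval u.2 (q.map (algebraMap ℚ F))) =
        ∑ i ∈ Finset.range (q.natDegree + 1), ((q.coeff i : ℚ) : F) • u ^ i := by
      rw [Polynomial.aeval_eq_sum_range' (n := q.natDegree + 1)
          (by rw [Polynomial.natDegree_map]; omega),
        Polynomial.aeval_eq_sum_range' (n := q.natDegree + 1)
          (by rw [Polynomial.natDegree_map]; omega)]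
      ext1
      · rw [Prod.fst_sum]; simp
      · rw [Prod.snd_sum]; simp
    rw [heq]
    exact sum_mem fun i _ => smul_mem _ _ (pow_mem hu i)
  have := hmem p
  rw [hp1, hp2] at this
  exact this

/-! ### the ideal argument -/

omit [CharZero F] in
/-- Cayley-Hamilton: an operator which is injective on a stable subspace has a multiple
`w * p(w)` which is the identity there. -/
lemma exists_identity {V : Type*} [AddCommGroup V] [Module F V] [FiniteDimensional F V]
    (w : Module.End F V) (H : Submodule F V) (hst : ∀ x ∈ H, w x ∈ H)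
    (hinj : ∀ x ∈ H, w x = 0 → x = 0) : ∃ p : F[X], ∀ x ∈ H, (w * aeval w p) x = x := by
  set wH : Module.End F H := w.restrict hst with hwH
  have hker : LinearMap.ker wH = ⊥ := by
    rw [LinearMap.ker_eq_bot']
    intro x hx
    have := congrArg Subtype.val hx
    simp only [hwH, LinearMap.coe_restrict_apply, ZeroMemClass.coe_zero] at this
    exact Subtype.ext (hinj x.1 x.2 this)
  have hunit : IsUnit wH := (LinearMap.isUnit_iff_ker_eq_bot wH).2 hker
  obtain ⟨v, hv⟩ : ∃ v : Module.End F H, wH * v = 1 := ⟨_, hunit.mul_val_inv⟩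
  -- the inverse is a polynomial
  have hc0 : wH.charpoly.coeff 0 ≠ 0 := by
    have h1 : LinearMap.det wH ≠ 0 := by
      have := hunit.map LinearMap.det
      exact this.ne_zero
    intro h0
    apply h1
    rw [LinearMap.det_eq_sign_charpoly_coeff, h0, mul_zero]
  have hCH := LinearMap.aeval_self_charpoly wH
  have hdiv : wH.charpoly = X * wH.charpoly.divX + C (wH.charpoly.coeff 0) := by
    rw [mul_comm]; exact (Polynomial.divX_mul_X_add _).symm
  refine ⟨C (-(wH.charpoly.coeff 0)⁻¹) * wH.charpoly.divX, fun x hx => ?_⟩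
  have hres : ∀ (q : F[X]) (y : H), ((aeval wH q) y : V) = (aeval w q) (y : V) := by
    intro q
    induction q using Polynomial.induction_on' with
    | add p q hp hq => intro y; simp [hp, hq]
    | monomial n a =>
      intro y
      rw [aeval_monomial, aeval_monomial]
      simp only [Module.algebraMap_end_eq_smul_id, Module.End.mul_apply, LinearMap.smul_apply,
        LinearMap.id_apply, Submodule.coe_smul]
      congr 1
      clear hv hCH hdiv hc0 hunit hker
      induction n generalizing y with
      | zero => simp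
      | succ n ih =>
        rw [pow_succ, pow_succ, Module.End.mul_apply, Module.End.mul_apply, ih]
        rfl
  have h1 : ∀ y : H, wH ((aeval wH wH.charpoly.divX) y) = -(wH.charpoly.coeff 0) • y := by
    intro y
    have h2 : (aeval wH (X * wH.charpoly.divX + C (wH.charpoly.coeff 0))) y = 0 := by
      rw [← hdiv, hCH]; rfl
    rw [map_add, map_mul, aeval_X, aeval_C, LinearMap.add_apply, Module.End.mul_apply,
      Module.algebraMap_end_apply] at h2
    rw [neg_smul]
    exact eq_neg_of_add_eq_zero_left h2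
  have h2 := congrArg (fun y : H => (y : V)) (h1 ⟨x, hx⟩)
  simp only [Submodule.coe_smul] at h2
  have h3 : w ((aeval w wH.charpoly.divX) x) = -(wH.charpoly.coeff 0) • x := by
    rw [← h2, ← hres _ ⟨x, hx⟩]; rfl
  rw [Module.End.mul_apply, map_mul, aeval_C, Module.End.mul_apply, Module.algebraMap_end_apply,
    map_smul, h3, smul_smul]
  have : -(wH.charpoly.coeff 0)⁻¹ * -(wH.charpoly.coeff 0) = 1 := by
    rw [neg_mul_neg]; exact inv_mul_cancel₀ hc0
  rw [this, one_smul]

/-- the parity operator -/
def par : Module.End F Vp × Module.End F Vm := (1, -1)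

omit [CharZero F] [FiniteDimensional F Vp] [FiniteDimensional F Vm] in
lemma par_comm (u : Module.End F Vp × Module.End F Vm) : u * par = par * u := by
  ext1 <;> simp [par]

omit [CharZero F] [FiniteDimensional F Vp] [FiniteDimensional F Vm] in
/-- The elements `u` of an algebra such that `u` and `u * par` are both in the algebra form a
two-sided ideal: closure under `w ↦ w * p(w)`. -/
lemma par_ideal_aeval (S : Subalgebra F (Module.End F Vp × Module.End F Vm))
    {w : Module.End F Vp × Module.End F Vm} (hw : w ∈ S) (hw' : w * par ∈ S) (p : F[X]) :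
    w * aeval w p ∈ S ∧ (w * aeval w p) * par ∈ S := by
  have h1 : aeval w p ∈ S :=
    (Algebra.adjoin_le (by simpa using hw)) (Polynomial.aeval_mem_adjoin_singleton F w)
  refine ⟨S.mul_mem hw h1, ?_⟩
  rw [mul_assoc, par_comm, ← mul_assoc]
  exact S.mul_mem hw' h1

omit [CharZero F] [FiniteDimensional F Vp] [FiniteDimensional F Vm] in
/-- The main step: a family of elements `w i` of the ideal which are the identity on
subspaces `H i` stable under the algebra and spanning `Vm`. -/
lemma exists_unit_of_cover (S : Subalgebra F (Module.End F Vp × Module.End F Vm)) {n : ℕ}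
    (H : Fin n → Submodule F Vm) (hst : ∀ i, ∀ u ∈ S, ∀ x ∈ H i, u.2 x ∈ H i)
    (w : Fin n → Module.End F Vp × Module.End F Vm) (hw : ∀ i, w i ∈ S)
    (hw' : ∀ i, w i * par ∈ S) (hid : ∀ i, ∀ x ∈ H i, (w i).2 x = x) :
    ∃ u ∈ S, u * par ∈ S ∧ ∀ i, ∀ x ∈ H i, u.2 x = x := by
  induction n with
  | zero => exact ⟨0, S.zero_mem, by simp [S.zero_mem], fun i => i.elim0⟩
  | succ n ih =>
    obtain ⟨u, hu, hu', hui⟩ := ih (fun i => H i.succ) (fun i => hst i.succ) (fun i => w i.succ)
      (fun i => hw _) (fun i => hw' _) (fun i => hid _)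
    -- 1 - (1 - u)(1 - w 0) = u + w 0 - u * w 0
    refine ⟨u + w 0 - u * w 0, S.sub_mem (S.add_mem hu (hw 0)) (S.mul_mem hu (hw 0)), ?_, ?_⟩
    · rw [sub_mul, add_mul, mul_assoc]
      exact S.sub_mem (S.add_mem hu' (hw' 0)) (S.mul_mem hu (hw' 0))
    · intro i x hx
      have e : (u + w 0 - u * w 0).2 x = u.2 x + (w 0).2 x - u.2 ((w 0).2 x) := by
        simp
      rw [e]
      refine Fin.cases ?_ ?_ i hx
      · intro hx0
        rw [hid 0 x hx0]
        abel
      · intro j hxj
        have h1 : (w 0).2 x ∈ H j.succ := hst _ _ (hw 0) _ hxj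
        rw [hui j x hxj, hui j _ h1]
        abel

omit [CharZero F] [FiniteDimensional F Vp] [FiniteDimensional F Vm] in
lemma exists_unit_of_cover' (S : Subalgebra F (Module.End F Vp × Module.End F Vm)) {n : ℕ}
    (H : Fin n → Submodule F Vp) (hst : ∀ i, ∀ u ∈ S, ∀ x ∈ H i, u.1 x ∈ H i)
    (w : Fin n → Module.End F Vp × Module.End F Vm) (hw : ∀ i, w i ∈ S)
    (hw' : ∀ i, w i * par ∈ S) (hid : ∀ i, ∀ x ∈ H i, (w i).1 x = x) :
    ∃ u ∈ S, u * par ∈ S ∧ ∀ i, ∀ x ∈ H i, u.1 x = x := by
  induction n with
  | zero => exact ⟨0, S.zero_mem, by simp [S.zero_mem], fun i => i.elim0⟩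
  | succ n ih =>
    obtain ⟨u, hu, hu', hui⟩ := ih (fun i => H i.succ) (fun i => hst i.succ) (fun i => w i.succ)
      (fun i => hw _) (fun i => hw' _) (fun i => hid _)
    refine ⟨u + w 0 - u * w 0, S.sub_mem (S.add_mem hu (hw 0)) (S.mul_mem hu (hw 0)), ?_, ?_⟩
    · rw [sub_mul, add_mul, mul_assoc]
      exact S.sub_mem (S.add_mem hu' (hw' 0)) (S.mul_mem hu (hw' 0))
    · intro i x hx
      have e : (u + w 0 - u * w 0).1 x = u.1 x + (w 0).1 x - u.1 ((w 0).1 x) := by
        simp
      rw [e]
      refine Fin.cases ?_ ?_ i hx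
      · intro hx0
        rw [hid 0 x hx0]
        abel
      · intro j hxj
        have h1 : (w 0).1 x ∈ H j.succ := hst _ _ (hw 0) _ hxj
        rw [hui j x hxj, hui j _ h1]
        abel

omit [CharZero F] [FiniteDimensional F Vp] in
/-- Odd version. -/
lemma proj_of_cover_odd (h2 : (2 : F) ≠ 0) (S : Subalgebra F (Module.End F Vp × Module.End F Vm))
    {n : ℕ} (H : Fin n → Submodule F Vm) (hsup : ⨆ i, H i = ⊤)
    (hst : ∀ i, ∀ u ∈ S, ∀ x ∈ H i, u.2 x ∈ H i)
    (w : Fin n → Module.End F Vp × Module.End F Vm) (hw : ∀ i, w i ∈ S)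
    (hw' : ∀ i, w i * par ∈ S) (hinj : ∀ i, ∀ x ∈ H i, (w i).2 x = 0 → x = 0) :
    ((1 : Module.End F Vp), (0 : Module.End F Vm)) ∈ S := by
  choose p hp using fun i => exists_identity (w i).2 (H i) (fun x hx => hst i _ (hw i) x hx)
    (hinj i)
  have hsnd : ∀ i, (w i * aeval (w i) (p i)).2 = (w i).2 * aeval (w i).2 (p i) := by
    intro i
    have : (aeval (w i) (p i)).2 = aeval (w i).2 (p i) :=
      (Polynomial.aeval_algHom_apply (AlgHom.snd F (Module.End F Vp) (Module.End F Vm)) (w i) (p i)).symm
    rw [Prod.snd_mul, this]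
  obtain ⟨u, hu, hu', hid⟩ := exists_unit_of_cover S H hst (fun i => w i * aeval (w i) (p i))
    (fun i => (par_ideal_aeval S (hw i) (hw' i) (p i)).1)
    (fun i => (par_ideal_aeval S (hw i) (hw' i) (p i)).2)
    (fun i x hx => by rw [hsnd]; exact hp i x hx)
  have h1 : u.2 = 1 := by
    ext x
    have hx : x ∈ ⨆ i, H i := by rw [hsup]; trivial
    induction hx using Submodule.iSup_induction' with
    | mem i x hx => simpa using hid i x hx
    | zero => simp
    | add x y _ _ hx hy => rw [map_add, hx, hy]; simp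
  have h3 : ((0 : Module.End F Vp), (1 : Module.End F Vm)) ∈ S := by
    have h4 : u - u * par = (2 : F) • ((0 : Module.End F Vp), (1 : Module.End F Vm)) := by
      ext1
      · simp [par]
      · simp only [par, Prod.snd_sub, Prod.snd_mul, h1, Prod.smul_snd]
        rw [two_smul]; simp
    have h5 := S.sub_mem hu hu'
    rw [h4] at h5
    have h6 := S.smul_mem h5 (2 : F)⁻¹
    rwa [smul_smul, inv_mul_cancel₀ h2, one_smul] at h6
  have h4 := S.sub_mem S.one_mem h3
  have e : (1 : Module.End F Vp × Module.End F Vm) - (0, 1) = (1, 0) := by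
    ext1 <;> simp
  rwa [e] at h4

omit [CharZero F] [FiniteDimensional F Vm] in
/-- Even version. -/
lemma proj_of_cover_even (h2 : (2 : F) ≠ 0) (S : Subalgebra F (Module.End F Vp × Module.End F Vm))
    {n : ℕ} (H : Fin n → Submodule F Vp) (hsup : ⨆ i, H i = ⊤)
    (hst : ∀ i, ∀ u ∈ S, ∀ x ∈ H i, u.1 x ∈ H i)
    (w : Fin n → Module.End F Vp × Module.End F Vm) (hw : ∀ i, w i ∈ S)
    (hw' : ∀ i, w i * par ∈ S) (hinj : ∀ i, ∀ x ∈ H i, (w i).1 x = 0 → x = 0) :
    ((1 : Module.End F Vp), (0 : Module.End F Vm)) ∈ S := by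
  choose p hp using fun i => exists_identity (w i).1 (H i) (fun x hx => hst i _ (hw i) x hx)
    (hinj i)
  have hfst : ∀ i, (w i * aeval (w i) (p i)).1 = (w i).1 * aeval (w i).1 (p i) := by
    intro i
    have : (aeval (w i) (p i)).1 = aeval (w i).1 (p i) :=
      (Polynomial.aeval_algHom_apply (AlgHom.fst F (Module.End F Vp) (Module.End F Vm)) (w i) (p i)).symm
    rw [Prod.fst_mul, this]
  obtain ⟨u, hu, hu', hid⟩ := exists_unit_of_cover' S H hst (fun i => w i * aeval (w i) (p i))
    (fun i => (par_ideal_aeval S (hw i) (hw' i) (p i)).1)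
    (fun i => (par_ideal_aeval S (hw i) (hw' i) (p i)).2)
    (fun i x hx => by rw [hfst]; exact hp i x hx)
  have h1 : u.1 = 1 := by
    ext x
    have hx : x ∈ ⨆ i, H i := by rw [hsup]; trivial
    induction hx using Submodule.iSup_induction' with
    | mem i x hx => simpa using hid i x hx
    | zero => simp
    | add x y _ _ hx hy => rw [map_add, hx, hy]; simp
  have h4 : u + u * par = (2 : F) • ((1 : Module.End F Vp), (0 : Module.End F Vm)) := by
    ext1
    · simp only [par, Prod.fst_add, Prod.fst_mul, h1, Prod.smul_fst]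
      rw [two_smul]; simp
    · simp [par]
  have h5 := S.add_mem hu hu'
  rw [h4] at h5
  have h6 := S.smul_mem h5 (2 : F)⁻¹
  rwa [smul_smul, inv_mul_cancel₀ h2, one_smul] at h6

end Pool.Agent.Helper17.Sign
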