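import Pool.Agent.Helper17.Sign.Traces

namespace Pool.Agent.Helper17.Sign

open Polynomial Module

variable {F V W : Type*} [Field F] [AddCommGroup V] [Module F V] [FiniteDimensional F V]
  [AddCommGroup W] [Module F W] [FiniteDimensional F W]

lemma coprime_of_isUnit (f : Module.End F V) (q : F[X]) (h : IsUnit (aeval f q)) :
    IsCoprime f.charpoly q := by
  set K := AlgebraicClosure F with hK
  rw [Polynomial.isCoprime_iff_aeval_ne_zero_of_isAlgClosed F K]
  intro a
  by_contra hcon
  push Not at hcon
  obtain ⟨h1, h2⟩ := hcon
  set fK : Module.End K (TensorProduct F K V) := LinearMap.baseChange K f with hfK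
  have hroot : fK.charpoly.IsRoot a := by
    rw [hfK, LinearMap.charpoly_baseChange, IsRoot, eval_map_algebraMap]
    exact h1
  rw [← Module.End.hasEigenvalue_iff_isRoot_charpoly] at hroot
  obtain ⟨v, hv⟩ := hroot.exists_hasEigenvector
  have hva : aeval fK (q.map (algebraMap F K)) v = 0 := by
    rw [Module.End.aeval_apply_of_hasEigenvector hv, eval_map_algebraMap, h2, zero_smul]
  have hunit : IsUnit (aeval fK (q.map (algebraMap F K))) := by
    rw [Polynomial.aeval_map_algebraMap]
    have : aeval fK q = Module.End.baseChangeHom F K V (aeval f q) := by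
      rw [← Polynomial.aeval_algHom_apply]
      rfl
    rw [this]
    exact h.map _
  have hinj := ((Module.End.isUnit_iff _).mp hunit).1
  exact hv.2 (hinj (by rw [hva, map_zero]))

/-- Rational points are dense: an `F`-linear combination of pairs of endomorphisms with coprime
characteristic polynomials can be replaced by a rational one. -/
lemma exists_rational_combination [CharZero F] {m : ℕ} (a : Fin m → Module.End F V)
    (b : Fin m → Module.End F W) (c : Fin m → F)
    (h : IsUnit (aeval (∑ j, c j • a j) (∑ j, c j • b j).charpoly)) :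
    ∃ x : Fin m → ℚ, IsUnit (aeval (∑ j, (x j : F) • a j) (∑ j, (x j : F) • b j).charpoly) := by
  classical
  let bV := Module.finBasis F V
  let bW := Module.finBasis F W
  let R := MvPolynomial (Fin m) F
  let A : Fin m → Matrix (Fin (finrank F V)) (Fin (finrank F V)) F :=
    fun j => LinearMap.toMatrixAlgEquiv bV (a j)
  let B : Fin m → Matrix (Fin (finrank F W)) (Fin (finrank F W)) F :=
    fun j => LinearMap.toMatrixAlgEquiv bW (b j)
  let MA : Matrix (Fin (finrank F V)) (Fin (finrank F V)) R :=
    ∑ j, (MvPolynomial.X j : R) • (A j).map MvPolynomial.C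
  let MB : Matrix (Fin (finrank F W)) (Fin (finrank F W)) R :=
    ∑ j, (MvPolynomial.X j : R) • (B j).map MvPolynomial.C
  let G : R := (aeval MA MB.charpoly).det
  have hG : ∀ x : Fin m → F, MvPolynomial.eval x G =
      LinearMap.det (aeval (∑ j, x j • a j) (∑ j, x j • b j).charpoly) := by
    intro x
    have hMA : (MvPolynomial.eval x).mapMatrix MA = LinearMap.toMatrixAlgEquiv bV (∑ j, x j • a j) := by
      simp only [MA, A, map_sum, map_smul]
      refine Finset.sum_congr rfl fun j _ => ?_
      ext p q
      simp
    have hMB : (MvPolynomial.eval x).mapMatrix MB = LinearMap.toMatrixAlgEquiv bW (∑ j, x j • b j) := by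
      simp only [MB, B, map_sum, map_smul]
      refine Finset.sum_congr rfl fun j _ => ?_
      ext p q
      simp
    have hch : MB.charpoly.map (MvPolynomial.eval x) = (∑ j, x j • b j).charpoly := by
      rw [← Matrix.charpoly_map]
      have : MB.map (MvPolynomial.eval x) = LinearMap.toMatrixAlgEquiv bW (∑ j, x j • b j) := hMB
      rw [this]
      exact LinearMap.charpoly_toMatrix (∑ j, x j • b j) bW
    let ψ : Matrix (Fin (finrank F V)) (Fin (finrank F V)) R →+*
        Matrix (Fin (finrank F V)) (Fin (finrank F V)) F := (MvPolynomial.eval x).mapMatrix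
    have hψ : (algebraMap F (Matrix (Fin (finrank F V)) (Fin (finrank F V)) F)).comp
        (MvPolynomial.eval x) =
        ψ.comp (algebraMap R (Matrix (Fin (finrank F V)) (Fin (finrank F V)) R)) := by
      refine RingHom.ext fun r => ?_
      ext p q
      change (algebraMap F (Matrix (Fin (finrank F V)) (Fin (finrank F V)) F)
        (MvPolynomial.eval x r)) p q = MvPolynomial.eval x
          ((algebraMap R (Matrix (Fin (finrank F V)) (Fin (finrank F V)) R) r) p q)
      rw [Matrix.algebraMap_matrix_apply, Matrix.algebraMap_matrix_apply]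
      split_ifs <;> simp
    have hae : ψ (aeval MA MB.charpoly) =
        LinearMap.toMatrixAlgEquiv bV (aeval (∑ j, x j • a j) (∑ j, x j • b j).charpoly) := by
      have h1 := Polynomial.map_aeval_eq_aeval_map hψ MB.charpoly MA
      rw [h1, hch]
      have h2 : ψ MA = LinearMap.toMatrixAlgEquiv bV (∑ j, x j • a j) := hMA
      rw [h2]
      exact (Polynomial.aeval_algHom_apply (LinearMap.toMatrixAlgEquiv bV).toAlgHom
        (∑ j, x j • a j) (∑ j, x j • b j).charpoly)
    have hdet : MvPolynomial.eval x G = (ψ (aeval MA MB.charpoly)).det := RingHom.map_det _ _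
    rw [hdet, hae]
    exact LinearMap.det_toMatrix bV _
  have hGc : MvPolynomial.eval c G ≠ 0 := by
    rw [hG]
    exact (LinearMap.isUnit_iff_isUnit_det _ |>.mp h).ne_zero
  by_contra hcon
  push Not at hcon
  have hG0 : G = 0 := by
    refine MvPolynomial.funext_set (fun _ => Set.range fun q : ℚ => (q : F)) (fun _ =>
      Set.infinite_range_of_injective Rat.cast_injective) fun x hx => ?_
    rw [Set.mem_pi] at hx
    choose y hy using fun j => hx j (Set.mem_univ j)
    have hxy : x = fun j => ((y j : ℚ) : F) := by funext j; exact (hy j).symm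
    rw [map_zero, hG, hxy]
    by_contra hne
    exact hcon y ((LinearMap.isUnit_iff_isUnit_det _).mpr (isUnit_iff_ne_zero.mpr hne))
  rw [hG0, map_zero] at hGc
  exact hGc rfl

end Pool.Agent.Helper17.Sign
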