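import Mathlib
import Pool.Agent.Helper17.Sign.Traces

/-! Linear algebra for the Schur functor criterion. -/

namespace Pool.Agent.Helper17.Sign

open Polynomial Module

variable {F : Type*} [Field F]

/-! ### integrality of traces -/

section nat

variable {W : Type*} [AddCommGroup W] [Module F W] [FiniteDimensional F W]

/-- Eigenvalues are roots of annihilating polynomials. -/
lemma aeval_eig (f : Module.End F W) (q : F[X]) (hq : aeval f q = 0) (a : AlgebraicClosure F)
    (ha : a ∈ eig f) : aeval a q = 0 := by
  let K := AlgebraicClosure F
  have h1 : Module.End.HasEigenvalue (LinearMap.baseChange K f : Module.End K (TensorProduct F K W)) a := by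
    rw [Module.End.hasEigenvalue_iff_isRoot_charpoly, LinearMap.charpoly_baseChange]
    rw [mem_eig] at ha
    rw [IsRoot, eval_map_algebraMap]
    exact ha
  obtain ⟨x, hx⟩ := h1.exists_hasEigenvector
  have h2 : aeval (LinearMap.baseChange K f) (q.map (algebraMap F K)) = 0 := by
    have h3 : (aeval (LinearMap.baseChange K f)) (q.map (algebraMap F K)) =
        LinearMap.baseChange K (aeval f q) := by
      rw [aeval_map_algebraMap]
      exact (Polynomial.aeval_algHom_apply (Module.End.baseChangeHom F K W) f q).symm ▸ rfl
    rw [h3, hq]; simp
  have h4 := Module.End.aeval_apply_of_hasEigenvector (p := q.map (algebraMap F K)) hx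
  rw [h2, LinearMap.zero_apply, eval_map_algebraMap] at h4
  exact (smul_eq_zero.1 h4.symm).resolve_right hx.2

/-- the product `∏_{k < m} (X - k)` -/
noncomputable def fall (m : ℕ) : F[X] := ∏ k ∈ Finset.range m, (X - C (k : F))

lemma trace_nat [CharZero F] (f : Module.End F W) (m : ℕ) (h : aeval f (fall m : F[X]) = 0) :
    ∃ k : ℕ, LinearMap.trace F W f = (k : F) := by
  have hroots : ∀ a ∈ eig f, ∃ k : ℕ, a = (k : AlgebraicClosure F) := by
    intro a ha
    have h1 := aeval_eig f _ h a ha
    rw [fall, map_prod, Finset.prod_eq_zero_iff] at h1
    obtain ⟨k, -, hk⟩ := h1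
    refine ⟨k, ?_⟩
    rw [map_sub, aeval_X, aeval_C, map_natCast] at hk
    exact sub_eq_zero.1 hk
  have hsum : ∀ s : Multiset (AlgebraicClosure F), (∀ a ∈ s, ∃ k : ℕ, a = (k : AlgebraicClosure F)) →
      ∃ k : ℕ, s.sum = (k : AlgebraicClosure F) := by
    intro s
    induction s using Multiset.induction_on with
    | empty => intro _; exact ⟨0, by simp⟩
    | cons a s ih =>
      intro hs
      obtain ⟨k, hk⟩ := ih fun b hb => hs b (Multiset.mem_cons_of_mem hb)
      obtain ⟨l, hl⟩ := hs a (Multiset.mem_cons_self a s)
      exact ⟨l + k, by rw [Multiset.sum_cons, hk, hl]; push_cast; ring⟩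
  obtain ⟨k, hk⟩ := hsum _ hroots
  refine ⟨k, ?_⟩
  have h2 := trace_pow f 1
  simp only [pow_one, Multiset.map_id'] at h2
  rw [hk] at h2
  apply (algebraMap F (AlgebraicClosure F)).injective
  rw [h2, map_natCast]

end nat

/-- sums of commuting idempotents -/
lemma fall_sum_idem {R : Type*} [Ring R] [Algebra F R] {n : ℕ} (π : Fin n → R)
    (hidem : ∀ i, π i * π i = π i) (hcomm : ∀ i j, Commute (π i) (π j)) :
    aeval (∑ i, π i) (fall (n + 1) : F[X]) = 0 := by
  induction n with
  | zero => simp [fall]
  | succ n ih =>
    have ih' := ih (fun i => π i.succ) (fun i => hidem _) (fun i j => hcomm _ _)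
    set N' := ∑ i : Fin n, π i.succ with hN'
    have hc : Commute (π 0) N' := Commute.sum_right _ _ _ fun i _ => hcomm _ _
    rw [Fin.sum_univ_succ, ← hN']
    set p := π 0 with hp
    have hpp : p * p = p := hidem 0
    -- for any polynomial q
    have hcq : ∀ (q : F[X]) (M : R), Commute p M → Commute p (aeval M q) := by
      intro q M hM
      induction q using Polynomial.induction_on' with
      | add a b ha hb => rw [map_add]; exact ha.add_right hb
      | monomial k a =>
        rw [aeval_monomial]
        exact (Algebra.commute_algebraMap_right a p).mul_right (hM.pow_right k)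
    have key : ∀ q : F[X], aeval (p + N') q = p * aeval (1 + N') q + (1 - p) * aeval N' q := by
      intro q
      induction q using Polynomial.induction_on' with
      | add a b ha hb => simp only [map_add, ha, hb]; noncomm_ring
      | monomial k a =>
        simp only [aeval_monomial]
        have h1 : (p + N') ^ k = p * (1 + N') ^ k + (1 - p) * N' ^ k := by
          induction k with
          | zero => simp
          | succ k ih =>
            have hc1 : Commute p (1 + N') := (Commute.one_right p).add_right hc
            have e1 : p * (1 + N') ^ k * (p + N') = p * (1 + N') ^ (k + 1) := by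
              have : (1 + N') ^ k * (p + N') = (p + N') * (1 + N') ^ k := by
                have h3 : Commute ((1 + N') ^ k) (p + N') := by
                  apply Commute.pow_left
                  exact (hc1.symm).add_right
                    ((Commute.one_left N').add_left (Commute.refl N'))
                exact h3
              rw [mul_assoc, this, ← mul_assoc, mul_add, hpp, pow_succ', ← mul_assoc, mul_add,
                mul_one]
            have e2 : (1 - p) * N' ^ k * (p + N') = (1 - p) * N' ^ (k + 1) := by
              have h3 : N' ^ k * (p + N') = (p + N') * N' ^ k :=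
                ((hc.symm.add_right (Commute.refl N')).pow_left k)
              have h4 : (1 - p) * (p + N') = (1 - p) * N' := by
                rw [mul_add, sub_mul, one_mul, hpp, sub_self, zero_add]
              rw [mul_assoc, h3, ← mul_assoc, h4, pow_succ', mul_assoc]
            rw [pow_succ, ih, add_mul, e1, e2]
        rw [h1, mul_add, ← mul_assoc, ← mul_assoc, ← mul_assoc, ← mul_assoc,
          Algebra.commutes a p, Algebra.commutes a (1 - p)]
    rw [key]
    have h2 : aeval N' (fall (n + 1 + 1) : F[X]) = 0 := by
      rw [fall, Finset.prod_range_succ, map_mul]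
      have : aeval N' (∏ k ∈ Finset.range (n + 1), (X - C (k : F)) : F[X]) = 0 := ih'
      rw [this, zero_mul]
    have h3 : aeval (1 + N') (fall (n + 1 + 1) : F[X]) = 0 := by
      have e : (fall (n + 1 + 1) : F[X]).comp (1 + X) = fall (n + 1) * (1 + X) := by
        rw [fall, Finset.prod_range_succ', mul_comp, prod_comp, fall]
        congr 1
        · apply Finset.prod_congr rfl
          intro k _
          simp only [sub_comp, X_comp, C_comp]
          push_cast
          simp only [map_add, map_natCast, map_one]
          ring
        · simp
      have e2 : aeval N' ((fall (n + 1 + 1) : F[X]).comp (1 + X)) =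
          aeval (1 + N') (fall (n + 1 + 1) : F[X]) := by
        rw [aeval_comp]; simp
      rw [← e2, e, map_mul, ih', zero_mul]
    rw [h2, h3]; simp

end Pool.Agent.Helper17.Sign
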