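import Mathlib
import Pool.Agent.Helper17.Sign.Schur

/-! Linear algebra for the Schur functor criterion: the main argument. -/

namespace Pool.Agent.Helper17.Sign

open Polynomial Module

variable {F : Type*} [Field F] {V : Type*} [AddCommGroup V] [Module F V] [FiniteDimensional F V]

lemma trace_rank_one (f : Module.Dual F V) (x : V) :
    LinearMap.trace F V (f.smulRight x) = f x := by
  have h := LinearMap.trace_eq_contract_apply (R := F) (M := V) (f ⊗ₜ[F] x)
  rw [contractLeft_apply] at h
  rw [← h]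
  congr 1

lemma eq_zero_of_trace (z : Module.End F V) (h : ∀ v : Module.End F V,
    LinearMap.trace F V (z * v) = 0) : z = 0 := by
  ext x
  rw [LinearMap.zero_apply, ← Module.forall_dual_apply_eq_zero_iff F (z x)]
  intro f
  have h1 := h (f.smulRight x)
  have h2 : z * (f.smulRight x) = f.smulRight (z x) := by
    ext y; simp
  rw [h2, trace_rank_one] at h1
  exact h1

/-- A module endomorphism which commutes with all even ones is a scalar on the range of an even
projection. -/
lemma scalar_on {ε π y : Module.End F V} (hπ : π * π = π) (hπε : π * ε = π ∨ π * ε = -π)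
    (hεπ : ε * π = π * ε) (hy : ∀ v, v * ε = ε * v → y * v = v * y) :
    ∃ α : F, y * π = α • π := by
  by_cases h0 : ∀ x, π x = 0
  · refine ⟨0, ?_⟩
    have : π = 0 := by ext x; simpa using h0 x
    rw [this]; simp
  push Not at h0
  obtain ⟨x0, hx0⟩ := h0
  obtain ⟨f, hf⟩ : ∃ f : Module.Dual F V, f (π x0) = 1 := Projective.exists_dual_eq_one F hx0
  refine ⟨f (π (y (π x0))), ?_⟩
  ext x
  -- the even operator `z ↦ f (π z) π x`
  set w : Module.End F V := (f.comp π).smulRight (π x) with hw
  have hwε : w * ε = ε * w := by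
    ext z
    simp only [hw, Module.End.mul_apply, LinearMap.smulRight_apply, LinearMap.comp_apply, map_smul]
    have e1 : ε (π x) = (π * ε) x := by rw [← hεπ]; rfl
    have e2 : π (ε z) = (π * ε) z := rfl
    rw [e1, e2]
    rcases hπε with h | h
    · rw [h]
    · rw [h]; simp
  have h1 := LinearMap.congr_fun (hy w hwε) (π x0)
  simp only [hw, Module.End.mul_apply, LinearMap.smulRight_apply, LinearMap.comp_apply,
    map_smul] at h1
  have e3 : π (π x0) = π x0 := LinearMap.congr_fun hπ x0
  rw [e3, hf, one_smul] at h1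
  simpa using h1

variable {W : Type*} [AddCommGroup W] [Module F W] [FiniteDimensional F W]

lemma trace_idem_nat (e : Module.End F W) (he : e * e = e) :
    ∃ k : ℕ, LinearMap.trace F W e = (k : F) := by
  have h : IsIdempotentElem e := he
  exact ⟨_, (LinearMap.IsIdempotentElem.isProj_range e h).trace⟩

lemma trace_mul_sum_nat [CharZero F] {n : ℕ} (e : Module.End F W) (he : e * e = e)
    (π : Fin n → Module.End F W) (hidem : ∀ i, π i * π i = π i)
    (hcomm : ∀ i j, Commute (π i) (π j)) (hc : e * (∑ i, π i) = (∑ i, π i) * e) :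
    ∃ k : ℕ, LinearMap.trace F W (e * ∑ i, π i) = (k : F) := by
  set N := ∑ i, π i with hN
  have h0 : aeval N (fall (n + 1) : F[X]) = 0 := fall_sum_idem π hidem hcomm
  -- X * fall annihilates e * N
  have hpow : ∀ k : ℕ, (e * N) ^ (k + 1) = e * N ^ (k + 1) := by
    intro k
    have hC : Commute e N := hc
    rw [hC.mul_pow]
    have : e ^ (k + 1) = e := by
      induction k with
      | zero => simp
      | succ k ih => rw [pow_succ, ih, he]
    rw [this]
  have hX : ∀ q : F[X], aeval (e * N) (X * q) = e * aeval N (X * q) := by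
    intro q
    induction q using Polynomial.induction_on' with
    | add a b ha hb => rw [mul_add, map_add, map_add, ha, hb, mul_add]
    | monomial k a =>
      have e1 : (X : F[X]) * monomial k a = monomial (k + 1) a := by
        rw [X_mul_monomial]
      rw [e1, aeval_monomial, aeval_monomial, hpow, ← mul_assoc, ← mul_assoc, Algebra.commutes]
  have h1 : aeval (e * N) (X * fall (n + 1) : F[X]) = 0 := by
    rw [hX, map_mul, h0, mul_zero, mul_zero]
  -- fall (n+1) = X * ..., so it is enough to use a suitable multiple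
  have h2 : aeval (e * N) (fall (n + 1) : F[X]) = 0 := by
    have e1 : (fall (n + 1) : F[X]) = X * ∏ k ∈ Finset.range n, (X - C ((k + 1 : ℕ) : F)) := by
      rw [fall, Finset.prod_range_succ']
      simp [mul_comm]
    rw [e1, hX, ← e1, h0, mul_zero]
  exact trace_nat _ _ h2

/-- The main argument. -/
theorem schur_core [CharZero F] (A : Subring (Module.End F V))
    (smul_mem : ∀ (q : ℚ) (u : Module.End F V), u ∈ A → (q : F) • u ∈ A)
    (ε : Module.End F V) (hε : ε * ε = 1) (heven : ∀ x ∈ A, x * ε = ε * x)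
    {n : ℕ} (hn : 0 < n) (act : Fin n → Module.End F V →ₐ[F] Module.End F W)
    (hact : ∀ i j, i ≠ j → ∀ a b, act i a * act j b = act j b * act i a)
    (e : Module.End F W) (he : e * e = e) (he0 : e ≠ 0)
    (hnat : ∀ v, v * ε = ε * v → e * (∑ i, act i v) = (∑ i, act i v) * e)
    (hcontr : ∀ i, ∃ x ∈ A, ∀ v, v * ε = ε * v →
      LinearMap.trace F V (ε * x * v) = LinearMap.trace F W (e * act i v)) :
    (2⁻¹ : F) • (1 + ε) ∈ A := by
  have h2 : (2 : F) ≠ 0 := two_ne_zero
  choose x hxA hx using hcontr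
  obtain ⟨X0, hX0⟩ : ∃ X0, X0 = ∑ i, x i := ⟨_, rfl⟩
  have hXA : X0 ∈ A := by rw [hX0]; exact sum_mem fun i _ => hxA i
  obtain ⟨y, hy⟩ : ∃ y, y = ε * X0 := ⟨_, rfl⟩
  obtain ⟨N, hN⟩ : ∃ N : Module.End F V → Module.End F W, ∀ v, N v = ∑ i, act i v := ⟨_, fun _ => rfl⟩
  have htr : ∀ v, v * ε = ε * v → LinearMap.trace F V (y * v) = LinearMap.trace F W (e * N v) := by
    intro v hv
    have e1 : y * v = ∑ i, ε * x i * v := by rw [hy, hX0, Finset.mul_sum, Finset.sum_mul]
    have e2 : e * N v = ∑ i, e * act i v := by rw [hN, Finset.mul_sum]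
    rw [e1, e2, map_sum, map_sum]
    exact Finset.sum_congr rfl fun i _ => hx i v hv
  have hyε : y * ε = ε * y := by
    rw [hy, mul_assoc, heven _ hXA]
  have hNmul : ∀ v w, N (v * w) - N (w * v) = N v * N w - N w * N v := by
    intro v w
    have e1 : ∀ a b : Module.End F V, N a * N b = ∑ i, ∑ j, act i a * act j b := by
      intro a b; rw [hN, hN, Finset.sum_mul_sum]
    have e2 : N w * N v = ∑ i, ∑ j, act j w * act i v := by
      rw [e1, Finset.sum_comm]
    rw [e1, e2, hN, hN, ← Finset.sum_sub_distrib, ← Finset.sum_sub_distrib]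
    apply Finset.sum_congr rfl
    intro i _
    rw [← Finset.sum_sub_distrib, Finset.sum_eq_single i]
    · rw [map_mul, map_mul]
    · intro j _ hj
      rw [hact i j (Ne.symm hj), sub_self]
    · intro h; exact absurd (Finset.mem_univ i) h
  have hycomm : ∀ w, w * ε = ε * w → y * w = w * y := by
    intro w hw
    rw [← sub_eq_zero]
    have hz : ∀ v, v * ε = ε * v → LinearMap.trace F V ((y * w - w * y) * v) = 0 := by
      intro v hv
      have hwv : (w * v) * ε = ε * (w * v) := by rw [mul_assoc, hv, ← mul_assoc, hw, mul_assoc]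
      have hvw : (v * w) * ε = ε * (v * w) := by rw [mul_assoc, hw, ← mul_assoc, hv, mul_assoc]
      have e1 : LinearMap.trace F V ((y * w - w * y) * v) =
          LinearMap.trace F V (y * (w * v)) - LinearMap.trace F V (y * (v * w)) := by
        rw [sub_mul, map_sub, mul_assoc]
        congr 1
        rw [mul_assoc, LinearMap.trace_mul_comm, mul_assoc]
      rw [e1, htr _ hwv, htr _ hvw, ← map_sub, ← mul_sub, hNmul, mul_sub, map_sub]
      have e2 : LinearMap.trace F W (e * (N w * N v)) = LinearMap.trace F W (e * (N v * N w)) := by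
        have e3 := hnat w hw
        rw [← hN] at e3
        rw [← mul_assoc, e3, mul_assoc, LinearMap.trace_mul_comm, mul_assoc]
      rw [e2, sub_self]
    apply eq_zero_of_trace
    intro v
    -- the even part of v
    have hzε : (y * w - w * y) * ε = ε * (y * w - w * y) := by
      rw [sub_mul, mul_sub, mul_assoc, hw, ← mul_assoc, hyε, mul_assoc, mul_assoc w, hyε,
        ← mul_assoc w, hw, mul_assoc ε w]
    have hev : (v + ε * v * ε) * ε = ε * (v + ε * v * ε) := by
      rw [add_mul, mul_add, mul_assoc (ε * v), hε, mul_one, ← mul_assoc ε, ← mul_assoc ε, hε,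
        one_mul, add_comm]
    have h3 := hz _ hev
    have e3 : LinearMap.trace F V ((y * w - w * y) * (ε * v * ε)) =
        LinearMap.trace F V ((y * w - w * y) * v) := by
      rw [mul_assoc ε, ← mul_assoc, hzε, LinearMap.trace_mul_comm, mul_assoc v ε,
        ← mul_assoc ε ε, hε, one_mul, LinearMap.trace_mul_comm]
    rw [mul_add, map_add, e3, ← two_mul] at h3
    exact (mul_eq_zero.1 h3).resolve_left h2
  -- the projections
  obtain ⟨πp, hπp⟩ : ∃ πp : Module.End F V, πp = (2⁻¹ : F) • (1 + ε) := ⟨_, rfl⟩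
  obtain ⟨πm, hπm⟩ : ∃ πm : Module.End F V, πm = (2⁻¹ : F) • (1 - ε) := ⟨_, rfl⟩
  rw [← hπp]
  have hsum : πp + πm = 1 := by
    rw [hπp, hπm, ← smul_add]
    have : (1 + ε + (1 - ε) : Module.End F V) = (2 : F) • 1 := by rw [two_smul]; abel
    rw [this, smul_smul, inv_mul_cancel₀ h2, one_smul]
  have hpe : πp * ε = πp := by
    rw [hπp, smul_mul_assoc, add_mul, one_mul, hε, add_comm]
  have hme : πm * ε = -πm := by
    rw [hπm, smul_mul_assoc, sub_mul, one_mul, hε, ← smul_neg, neg_sub]
  have hep : ε * πp = πp * ε := by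
    rw [hπp, mul_smul_comm, smul_mul_assoc, mul_add, add_mul, mul_one, one_mul]
  have hem : ε * πm = πm * ε := by
    rw [hπm, mul_smul_comm, smul_mul_assoc, mul_sub, sub_mul, mul_one, one_mul]
  have hpp : πp * πp = πp := by
    nth_rewrite 2 [hπp]
    rw [mul_smul_comm, mul_add, mul_one, hpe, ← two_smul F, smul_smul, inv_mul_cancel₀ h2, one_smul]
  have hmm : πm * πm = πm := by
    nth_rewrite 2 [hπm]
    rw [mul_smul_comm, mul_sub, mul_one, hme, sub_neg_eq_add, ← two_smul F, smul_smul,
      inv_mul_cancel₀ h2, one_smul]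
  obtain ⟨α, hα⟩ := scalar_on hpp (Or.inl hpe) hep hycomm
  obtain ⟨β, hβ⟩ := scalar_on hmm (Or.inr hme) hem hycomm
  -- the traces
  obtain ⟨bp, hbp⟩ := trace_idem_nat πp hpp
  obtain ⟨bm, hbm⟩ := trace_idem_nat πm hmm
  have hcomm_act : ∀ (p : Module.End F V), p * p = p → ∀ i j, Commute (act i p) (act j p) := by
    intro p _ i j
    by_cases hij : i = j
    · rw [hij]
    · exact hact i j hij p p
  obtain ⟨mp, hmp⟩ := trace_mul_sum_nat e he (fun i => act i πp)
    (fun i => by rw [← map_mul, hpp]) (hcomm_act πp hpp) (hnat πp hep.symm)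
  obtain ⟨mm, hmm'⟩ := trace_mul_sum_nat e he (fun i => act i πm)
    (fun i => by rw [← map_mul, hmm]) (hcomm_act πm hmm) (hnat πm hem.symm)
  obtain ⟨r, hr⟩ := trace_idem_nat e he
  have hr0 : r ≠ 0 := by
    rintro rfl
    apply he0
    have h3 : IsIdempotentElem e := he
    exact (LinearMap.IsIdempotentElem.trace_eq_zero_iff h3).1 (by rw [hr]; simp)
  have hαb : α * bp = mp := by
    rw [← hbp, ← hmp, ← smul_eq_mul, ← map_smul, ← hα, htr πp hep.symm, hN]
  have hβb : β * bm = mm := by
    rw [← hbm, ← hmm', ← smul_eq_mul, ← map_smul, ← hβ, htr πm hem.symm, hN]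
  have htot : mp + mm = n * r := by
    have h3 : ((mp + mm : ℕ) : F) = ((n * r : ℕ) : F) := by
      push_cast
      rw [← hmp, ← hmm', ← hr, ← map_add, ← mul_add, ← Finset.sum_add_distrib]
      have e1 : ∑ i, (act i πp + act i πm) = (n : F) • (1 : Module.End F W) := by
        have : ∀ i, act i πp + act i πm = 1 := by
          intro i; rw [← map_add, hsum, map_one]
        rw [Finset.sum_congr rfl fun i _ => this i, Finset.sum_const, Finset.card_univ,
          Fintype.card_fin, Nat.cast_smul_eq_nsmul]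
      rw [e1, mul_smul_comm, mul_one, map_smul, smul_eq_mul]
    exact_mod_cast h3
  have hy2 : y = α • πp + β • πm := by
    rw [← hα, ← hβ, ← mul_add, hsum, mul_one]
  have hX2 : X0 = α • πp - β • πm := by
    have e1 : X0 = ε * y := by rw [hy, ← mul_assoc, hε, one_mul]
    rw [e1, hy2, mul_add, mul_smul_comm, mul_smul_comm, hep, hem, hpe, hme, smul_neg,
      sub_eq_add_neg]
  -- conclusion
  by_cases hbp0 : bp = 0
  · have h3 : IsIdempotentElem πp := hpp
    have : πp = 0 := (LinearMap.IsIdempotentElem.trace_eq_zero_iff h3).1 (by rw [hbp, hbp0]; simp)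
    rw [this]; exact A.zero_mem
  by_cases hbm0 : bm = 0
  · have h3 : IsIdempotentElem πm := hmm
    have : πm = 0 := (LinearMap.IsIdempotentElem.trace_eq_zero_iff h3).1 (by rw [hbm, hbm0]; simp)
    have e1 : πp = 1 := by rw [← hsum, this, add_zero]
    rw [e1]; exact A.one_mem
  have hbp' : (bp : F) ≠ 0 := by exact_mod_cast hbp0
  have hbm' : (bm : F) ≠ 0 := by exact_mod_cast hbm0
  have hα' : α = ((mp / bp : ℚ) : F) := by
    push_cast; rw [eq_div_iff hbp']; exact hαb
  have hβ' : β = ((mm / bm : ℚ) : F) := by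
    push_cast; rw [eq_div_iff hbm']; exact hβb
  set a : ℚ := mp / bp with ha
  set b : ℚ := mm / bm with hb
  have hab : a + b ≠ 0 := by
    have h3 : 0 < n * r := Nat.mul_pos hn (Nat.pos_of_ne_zero hr0)
    have ha0 : 0 ≤ a := by positivity
    have hb0 : 0 ≤ b := by positivity
    have h4 : 0 < mp ∨ 0 < mm := by omega
    have hbpq : (0:ℚ) < bp := by exact_mod_cast Nat.pos_of_ne_zero hbp0
    have hbmq : (0:ℚ) < bm := by exact_mod_cast Nat.pos_of_ne_zero hbm0
    rcases h4 with h4 | h4
    · have h5 : (0:ℚ) < mp := by exact_mod_cast h4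
      have : 0 < a := by rw [ha]; positivity
      linarith
    · have h5 : (0:ℚ) < mm := by exact_mod_cast h4
      have : 0 < b := by rw [hb]; positivity
      linarith
  have hfin : X0 + β • 1 = (α + β) • πp := by
    rw [hX2, ← hsum, smul_add, add_smul]; abel
  have hmem : (α + β) • πp ∈ A := by
    rw [← hfin, hβ']
    exact A.add_mem hXA (smul_mem b _ A.one_mem)
  have h5 := smul_mem (a + b)⁻¹ _ hmem
  have e6 : (((a + b)⁻¹ : ℚ) : F) • (α + β) • πp = πp := by
    rw [smul_smul, hα', hβ']
    have : (((a + b)⁻¹ : ℚ) : F) * ((a : F) + (b : F)) = 1 := by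
      rw [← Rat.cast_add, ← Rat.cast_mul, inv_mul_cancel₀ hab, Rat.cast_one]
    rw [this, one_smul]
  rwa [e6] at h5

end Pool.Agent.Helper17.Sign
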