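import Pool.Agent.Helper17.Sign.Schur2

/-! Concrete operators on tensor powers, for the Schur functor criterion. -/

namespace Pool.Agent.Helper17.Sign.Pow

open Module TensorProduct Pool.Agent.Helper17.Sign

variable {F V : Type*} [Field F] [AddCommGroup V] [Module F V]

abbrev CohPow (F V : Type*) [Field F] [AddCommGroup V] [Module F V] (n : ℕ) : Type _ :=
  ⨂[F] _ : Fin n, V

noncomputable def tensor {n : ℕ} (u : Fin n → Module.End F V) : Module.End F (CohPow F V n) :=
  PiTensorProduct.map u

noncomputable def onFactor {n : ℕ} (i : Fin n) (v : Module.End F V) :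
    Module.End F (CohPow F V n) :=
  tensor (Function.update (fun _ => 1) i v)

def evenProj {R : Type*} [Ring R] [Algebra F R] (ε : R) : R := (2⁻¹ : F) • (1 + ε)

lemma tensor_one (n : ℕ) : tensor (fun _ : Fin n => (1 : Module.End F V)) = 1 :=
  PiTensorProduct.map_one (R := F) (s := fun _ : Fin n => V)

lemma tensor_mul {n : ℕ} (u v : Fin n → Module.End F V) :
    tensor (fun i => u i * v i) = tensor u * tensor v :=
  PiTensorProduct.map_mul (R := F) (s := fun _ : Fin n => V) u v

lemma onFactor_add {n : ℕ} (i : Fin n) (u v : Module.End F V) :
    onFactor i (u + v) = onFactor i u + onFactor i v :=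
  PiTensorProduct.map_update_add (R := F) (s := fun _ : Fin n => V)
    (t := fun _ : Fin n => V) (fun _ => 1) i u v

lemma onFactor_smul {n : ℕ} (i : Fin n) (c : F) (u : Module.End F V) :
    onFactor i (c • u) = c • onFactor i u :=
  PiTensorProduct.map_update_smul (R := F) (s := fun _ : Fin n => V)
    (t := fun _ : Fin n => V) (fun _ => 1) i c u

lemma onFactor_one {n : ℕ} (i : Fin n) : onFactor i (1 : Module.End F V) = 1 := by
  unfold onFactor
  rw [Function.update_eq_self (f := fun _ : Fin n => (1 : Module.End F V)) i]
  exact tensor_one n

lemma onFactor_mul {n : ℕ} (i : Fin n) (u v : Module.End F V) :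
    onFactor i (u * v) = onFactor i u * onFactor i v := by
  unfold onFactor
  rw [← tensor_mul]
  congr 1
  funext j
  by_cases h : j = i
  · subst h; simp
  · simp only [Function.update_of_ne h, mul_one]

/-- `onFactor i` is an algebra homomorphism -/
noncomputable def onFactorHom {n : ℕ} (i : Fin n) :
    Module.End F V →ₐ[F] Module.End F (CohPow F V n) :=
  AlgHom.ofLinearMap
    { toFun := onFactor i
      map_add' := onFactor_add i
      map_smul' := onFactor_smul i }
    (onFactor_one i) (onFactor_mul i)

lemma onFactorHom_apply {n : ℕ} (i : Fin n) (v : Module.End F V) :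
    onFactorHom i v = onFactor i v := rfl

lemma onFactor_comm {n : ℕ} {i j : Fin n} (hij : i ≠ j) (a b : Module.End F V) :
    onFactor i a * onFactor j b = onFactor j b * onFactor i a := by
  unfold onFactor
  rw [← tensor_mul, ← tensor_mul]
  congr 1
  funext k
  by_cases h1 : k = i
  · subst h1
    rw [Function.update_self, Function.update_of_ne hij, mul_one, one_mul]
  · by_cases h2 : k = j
    · subst h2
      rw [Function.update_self, Function.update_of_ne h1, mul_one, one_mul]
    · rw [Function.update_of_ne h1, Function.update_of_ne h2]

noncomputable def swapFactors (F V : Type*) [Field F] [AddCommGroup V] [Module F V] {n : ℕ}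
    (i j : Fin n) : Module.End F (CohPow F V n) :=
  (PiTensorProduct.reindex F (fun _ : Fin n => V) (Equiv.swap i j)).toLinearMap

lemma swap_onFactor {n : ℕ} (i j k : Fin n) (v : Module.End F V) :
    swapFactors F V i j * onFactor k v = onFactor (Equiv.swap i j k) v * swapFactors F V i j := by
  unfold swapFactors onFactor tensor
  apply PiTensorProduct.ext
  ext x
  simp only [LinearMap.compMultilinearMap_apply, Module.End.mul_apply, LinearEquiv.coe_coe]
  rw [PiTensorProduct.map_tprod (R := F) (s := fun _ : Fin n => V)
      (t := fun _ : Fin n => V),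
    PiTensorProduct.reindex_tprod (R := F) (s := fun _ : Fin n => V),
    PiTensorProduct.reindex_tprod (R := F) (s := fun _ : Fin n => V),
    PiTensorProduct.map_tprod (R := F) (s := fun _ : Fin n => V)
      (t := fun _ : Fin n => V)]
  congr 1
  funext a
  simp only [Equiv.symm_swap]
  by_cases h : a = Equiv.swap i j k
  · subst h
    rw [Equiv.swap_apply_self, Function.update_self, Function.update_self]
  · have h' : Equiv.swap i j a ≠ k := by
      intro h2
      apply h
      rw [← h2, Equiv.swap_apply_self]
    rw [Function.update_of_ne h, Function.update_of_ne h']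

noncomputable def exchange (ε : Module.End F V) {n : ℕ} (i j : Fin n) :
    Module.End F (CohPow F V n) :=
  swapFactors F V i j * (1 - (2 : F) • onFactor i ((2⁻¹ : F) • (1 - ε)) *
    onFactor j ((2⁻¹ : F) • (1 - ε)))

lemma commute_exchange {ε : Module.End F V} {n : ℕ} (i j : Fin n) {v : Module.End F V}
    (hv : Commute v ε) : Commute (exchange ε i j) (∑ k, onFactor k v) := by
  have hodd : Commute ((2⁻¹ : F) • (1 - ε)) v :=
    Commute.smul_left (Commute.sub_left (Commute.one_left v) hv.symm) _
  set o : Module.End F V := (2⁻¹ : F) • (1 - ε) with ho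
  have h1 : ∀ a : Fin n, Commute (onFactor a o) (∑ k, onFactor k v) := by
    intro a
    apply Commute.sum_right
    intro k _
    by_cases h : a = k
    · subst h
      have := hodd.map (onFactorHom (n := n) a)
      exact this
    · exact onFactor_comm h _ _
  set N : Module.End F (CohPow F V n) := ∑ k, onFactor k v with hN
  have h2 : Commute (1 - (2 : F) • onFactor i o * onFactor j o) N :=
    Commute.sub_left (Commute.one_left N) (((h1 i).smul_left (2 : F)).mul_left (h1 j))
  have h3 : Commute (swapFactors F V i j) N := by
    show swapFactors F V i j * N = N * swapFactors F V i j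
    rw [hN, Finset.mul_sum, Finset.sum_mul,
      ← Equiv.sum_comp (Equiv.swap i j) (fun k => onFactor k v * swapFactors F V i j)]
    exact Finset.sum_congr rfl fun k _ => swap_onFactor i j k v
  exact h3.mul_left h2

end Pool.Agent.Helper17.Sign.Pow
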